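import Pool.Agent.Q203.UIC.StepLib3
import Pool.Agent.Q42.UIC.near_inv

/-! Project UIC: tools for the central limit theorem. -/

set_option autoImplicit false

open MeasureTheory ProbabilityTheory Pool.Agent.Q42.UIC

namespace Pool.Agent.Q203.UIC

theorem exp_tay (u : ℝ) : ‖Complex.exp (Complex.I * u) - 1 - Complex.I * u + (u : ℂ) ^ 2 / 2‖
    ≤ 4 * min (|u| ^ 3) (u ^ 2) := by
  have hn : ‖Complex.I * (u : ℂ)‖ = |u| := by simp
  rcases le_or_gt |u| 1 with h | h
  · have h1 := Complex.exp_bound (x := Complex.I * u) (by rw [hn]; exact h) (n := 3) (by norm_num)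
    have e : (∑ m ∈ Finset.range 3, (Complex.I * (u : ℂ)) ^ m / (m.factorial : ℂ))
        = 1 + Complex.I * u - (u : ℂ) ^ 2 / 2 := by
      simp only [Finset.sum_range_succ, Finset.sum_range_zero, Nat.factorial]
      push_cast
      have hI := Complex.I_sq
      linear_combination ((u : ℂ) ^ 2 / 2) * hI
    rw [e, hn] at h1
    have e2 : Complex.exp (Complex.I * u) - 1 - Complex.I * u + (u : ℂ) ^ 2 / 2
        = Complex.exp (Complex.I * u) - (1 + Complex.I * u - (u : ℂ) ^ 2 / 2) := by ring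
    rw [e2]
    refine h1.trans ?_
    have h3 : |u| ^ 3 ≤ u ^ 2 := by
      rw [← sq_abs u, pow_succ]
      nlinarith [sq_nonneg |u|, abs_nonneg u]
    rw [min_eq_left h3]
    have h4 : 0 ≤ |u| ^ 3 := by positivity
    norm_num [Nat.factorial]
    nlinarith
  · have h1 : ‖Complex.exp (Complex.I * u) - 1‖ ≤ |u| := by
      have := Real.norm_exp_I_mul_ofReal_sub_one_le (x := u)
      simpa using this
    have h2 : ‖(u : ℂ) ^ 2 / 2‖ = u ^ 2 / 2 := by
      rw [norm_div, norm_pow, Complex.norm_real, Real.norm_eq_abs, sq_abs]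
      simp
    have h3 : u ^ 2 ≤ |u| ^ 3 := by
      rw [← sq_abs u, pow_succ]
      nlinarith [sq_nonneg |u|, abs_nonneg u]
    rw [min_eq_right h3]
    calc ‖Complex.exp (Complex.I * u) - 1 - Complex.I * u + (u : ℂ) ^ 2 / 2‖
        ≤ ‖Complex.exp (Complex.I * u) - 1 - Complex.I * u‖ + ‖(u : ℂ) ^ 2 / 2‖ := norm_add_le _ _
      _ ≤ ‖Complex.exp (Complex.I * u) - 1‖ + ‖Complex.I * (u : ℂ)‖ + ‖(u : ℂ) ^ 2 / 2‖ := by
          gcongr
          exact norm_sub_le _ _
      _ ≤ |u| + |u| + u ^ 2 / 2 := by rw [hn, h2]; gcongr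
      _ ≤ 4 * u ^ 2 := by
          rw [← sq_abs u]
          nlinarith [abs_nonneg u]

theorem exp_bd (y : ℝ) (hy : 0 ≤ y) : |Real.exp (-y) - 1 + y| ≤ y ^ 2 := by
  rcases le_or_gt y 1 with h | h
  · have := Real.abs_exp_sub_one_sub_id_le (x := -y) (by rw [abs_neg, abs_of_nonneg hy]; exact h)
    have e : Real.exp (-y) - 1 - -y = Real.exp (-y) - 1 + y := by ring
    rw [e, neg_sq] at this
    exact this
  · have h1 : Real.exp (-y) ≤ 1 := Real.exp_le_one_iff.2 (by linarith)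
    have h2 := Real.add_one_le_exp (-y)
    rw [abs_of_nonneg (by linarith)]
    nlinarith

theorem exp_lip (a b : ℝ) (ha : 0 ≤ a) (hb : 0 ≤ b) : |Real.exp (-a) - Real.exp (-b)| ≤ |a - b| := by
  wlog h : a ≤ b generalizing a b
  · rw [abs_sub_comm, abs_sub_comm a b]
    exact this b a hb ha (le_of_not_ge h)
  have h1 : Real.exp (-b) = Real.exp (-a) * Real.exp (-(b - a)) := by
    rw [← Real.exp_add]; ring_nf
  have h2 : Real.exp (-a) ≤ 1 := Real.exp_le_one_iff.2 (by linarith)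
  have h3 := Real.add_one_le_exp (-(b - a))
  have h4 : Real.exp (-b) ≤ Real.exp (-a) := Real.exp_le_exp.2 (by linarith)
  have h5 := Real.exp_pos (-a)
  have h6 : Real.exp (-(b - a)) ≤ 1 := Real.exp_le_one_iff.2 (by linarith)
  rw [abs_of_nonneg (by linarith), abs_sub_comm, abs_of_nonneg (by linarith), h1]
  nlinarith

/-- the local estimate -/
theorem local_est {X : Type} [MeasurableSpace X] (P : Measure X) [IsProbabilityMeasure P] (s : X → ℝ)
    (hs : Measurable s) (h2 : Integrable (fun x => s x ^ 2) P) (t L v K : ℝ) (hL : 0 < L) (hv : 0 ≤ v)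
    (hK : 0 < K) :
    ‖∫ x, Complex.exp (Complex.I * (t * s x)) ∂P - (Real.exp (-(v * t ^ 2 * L / 2)) : ℂ)‖
      ≤ |t| * |∫ x, s x ∂P| + t ^ 2 * L / 2 * |∫ x, s x ^ 2 / L ∂P - v|
        + 4 * ∫ x, (|t| ^ 3 * Real.sqrt (K * L) * s x ^ 2
          + t ^ 2 * (if K * L ≤ s x ^ 2 then s x ^ 2 else 0)) ∂P + (v * t ^ 2 * L / 2) ^ 2 := by
  have hm : MemLp s 2 P := (memLp_two_iff_integrable_sq hs.aestronglyMeasurable).2 h2
  have h1 : Integrable s P := hm.integrable (by norm_num)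
  have mexp : Measurable (fun x => Complex.exp (Complex.I * (t * s x))) := by fun_prop
  have iexp : Integrable (fun x => Complex.exp (Complex.I * (t * s x))) P := by
    refine Integrable.of_bound mexp.aestronglyMeasurable 1 ?_
    filter_upwards with x
    rw [← Complex.ofReal_mul, mul_comm, Complex.norm_exp_ofReal_mul_I]
  have ic1 : Integrable (fun x => Complex.I * ((t * s x : ℝ) : ℂ)) P :=
    ((h1.const_mul t).ofReal).const_mul _
  have ic2 : Integrable (fun x => (((t * s x) ^ 2 / 2 : ℝ) : ℂ)) P := by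
    have i0 : Integrable (fun x => (t * s x) ^ 2 / 2) P := by
      have e0 : (fun x => (t * s x) ^ 2 / 2) = fun x => (t ^ 2 / 2) * s x ^ 2 := by
        funext x; ring
      rw [e0]
      exact h2.const_mul _
    exact i0.ofReal
  -- the remainder
  set R : X → ℂ := fun x => Complex.exp (Complex.I * (t * s x)) - 1 - Complex.I * ((t * s x : ℝ) : ℂ)
    + (((t * s x) ^ 2 / 2 : ℝ) : ℂ) with hR
  set Gf : X → ℝ := fun x => |t| ^ 3 * Real.sqrt (K * L) * s x ^ 2
          + t ^ 2 * (if K * L ≤ s x ^ 2 then s x ^ 2 else 0) with hG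
  have mif : Measurable (fun x => if K * L ≤ s x ^ 2 then s x ^ 2 else 0) :=
    Measurable.ite (measurableSet_le measurable_const (hs.pow_const 2)) (hs.pow_const 2)
      measurable_const
  have iif : Integrable (fun x => if K * L ≤ s x ^ 2 then s x ^ 2 else 0) P := by
    refine Integrable.mono' h2 mif.aestronglyMeasurable ?_
    filter_upwards with x
    split_ifs
    · rw [Real.norm_eq_abs, abs_of_nonneg (sq_nonneg _)]
    · simp [sq_nonneg]
  have iG : Integrable Gf P := (h2.const_mul _).add (iif.const_mul _)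
  have hRG : ∀ x, ‖R x‖ ≤ 4 * Gf x := by
    intro x
    have e := exp_tay (t * s x)
    have e1 : R x = Complex.exp (Complex.I * ((t * s x : ℝ) : ℂ)) - 1 - Complex.I * ((t * s x : ℝ) : ℂ)
        + ((t * s x : ℝ) : ℂ) ^ 2 / 2 := by
      simp only [hR]
      push_cast
      ring
    rw [e1]
    refine e.trans (mul_le_mul_of_nonneg_left ?_ (by norm_num))
    simp only [hG]
    have hK0 : 0 ≤ |t| ^ 3 * Real.sqrt (K * L) * s x ^ 2 := by positivity
    split_ifs with hc
    · refine (min_le_right _ _).trans ?_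
      rw [mul_pow]
      linarith
    · rw [not_le] at hc
      refine (min_le_left _ _).trans ?_
      have h3 : |s x| ≤ Real.sqrt (K * L) := Real.abs_le_sqrt hc.le
      have e3 : |t * s x| ^ 3 = |t| ^ 3 * |s x| * s x ^ 2 := by
        rw [abs_mul, mul_pow, ← sq_abs (s x)]
        ring
      rw [e3, mul_zero, add_zero]
      gcongr
  have iR : Integrable R P := ((iexp.sub (integrable_const 1)).sub ic1).add ic2
  have eR : ∫ x, Complex.exp (Complex.I * (t * s x)) ∂P
      = (∫ x, R x ∂P) + 1 + Complex.I * ((t * ∫ x, s x ∂P : ℝ) : ℂ)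
        - ((t ^ 2 / 2 * ∫ x, s x ^ 2 ∂P : ℝ) : ℂ) := by
    have i1 : Integrable (fun x => Complex.exp (Complex.I * (t * s x)) - 1) P :=
      iexp.sub (integrable_const 1)
    have i2 : Integrable (fun x => Complex.exp (Complex.I * (t * s x)) - 1
      - Complex.I * ((t * s x : ℝ) : ℂ)) P := i1.sub ic1
    have e1 : ∫ x, R x ∂P = (∫ x, Complex.exp (Complex.I * (t * s x)) ∂P) - 1
        - Complex.I * ((t * ∫ x, s x ∂P : ℝ) : ℂ) + ((t ^ 2 / 2 * ∫ x, s x ^ 2 ∂P : ℝ) : ℂ) := by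
      simp only [hR]
      rw [integral_add i2 ic2, integral_sub i1 ic1, integral_sub iexp (integrable_const 1),
        integral_const_mul]
      have e2 : ∫ x, ((t * s x : ℝ) : ℂ) ∂P = ((t * ∫ x, s x ∂P : ℝ) : ℂ) := by
        rw [integral_complex_ofReal, integral_const_mul]
      have e3 : ∫ x, (((t * s x) ^ 2 / 2 : ℝ) : ℂ) ∂P = ((t ^ 2 / 2 * ∫ x, s x ^ 2 ∂P : ℝ) : ℂ) := by
        rw [integral_complex_ofReal]
        congr 1
        rw [← integral_const_mul]
        refine integral_congr_ae (Filter.Eventually.of_forall fun x => ?_)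
        simp only
        ring
      rw [e2, e3]
      simp
    rw [e1]
    ring
  have hRn : ‖∫ x, R x ∂P‖ ≤ 4 * ∫ x, Gf x ∂P := by
    refine (norm_integral_le_integral_norm _).trans ?_
    rw [← integral_const_mul]
    exact integral_mono iR.norm (iG.const_mul 4) hRG
  set y := v * t ^ 2 * L / 2 with hy
  have hy0 : 0 ≤ y := by positivity
  have hyb := exp_bd y hy0
  have eV : ∫ x, s x ^ 2 / L ∂P = (∫ x, s x ^ 2 ∂P) / L := integral_div _ _
  have efin : ∫ x, Complex.exp (Complex.I * (t * s x)) ∂P - (Real.exp (-y) : ℂ)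
      = (∫ x, R x ∂P) + Complex.I * ((t * ∫ x, s x ∂P : ℝ) : ℂ)
        - ((t ^ 2 * L / 2 * (∫ x, s x ^ 2 / L ∂P - v) : ℝ) : ℂ)
        - ((Real.exp (-y) - 1 + y : ℝ) : ℂ) := by
    rw [eR, eV]
    have e1 : t ^ 2 * L / 2 * ((∫ x, s x ^ 2 ∂P) / L - v) = t ^ 2 / 2 * (∫ x, s x ^ 2 ∂P) - y := by
      rw [hy]
      field_simp
    rw [e1]
    push_cast
    ring
  rw [efin]
  have n1 : ‖Complex.I * ((t * ∫ x, s x ∂P : ℝ) : ℂ)‖ = |t| * |∫ x, s x ∂P| := by
    rw [norm_mul, Complex.norm_I, one_mul, Complex.norm_real, Real.norm_eq_abs, abs_mul]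
  have n2 : ‖((t ^ 2 * L / 2 * (∫ x, s x ^ 2 / L ∂P - v) : ℝ) : ℂ)‖
      = t ^ 2 * L / 2 * |∫ x, s x ^ 2 / L ∂P - v| := by
    rw [Complex.norm_real, Real.norm_eq_abs, abs_mul, abs_of_nonneg (by positivity)]
  have n3 : ‖((Real.exp (-y) - 1 + y : ℝ) : ℂ)‖ ≤ y ^ 2 := by
    rw [Complex.norm_real, Real.norm_eq_abs]
    exact hyb
  calc _ ≤ ‖(∫ x, R x ∂P) + Complex.I * ((t * ∫ x, s x ∂P : ℝ) : ℂ)
        - ((t ^ 2 * L / 2 * (∫ x, s x ^ 2 / L ∂P - v) : ℝ) : ℂ)‖
        + ‖((Real.exp (-y) - 1 + y : ℝ) : ℂ)‖ := norm_sub_le _ _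
    _ ≤ ‖(∫ x, R x ∂P) + Complex.I * ((t * ∫ x, s x ∂P : ℝ) : ℂ)‖
        + ‖((t ^ 2 * L / 2 * (∫ x, s x ^ 2 / L ∂P - v) : ℝ) : ℂ)‖
        + ‖((Real.exp (-y) - 1 + y : ℝ) : ℂ)‖ := by
          gcongr
          exact norm_sub_le _ _
    _ ≤ ‖∫ x, R x ∂P‖ + ‖Complex.I * ((t * ∫ x, s x ∂P : ℝ) : ℂ)‖
        + ‖((t ^ 2 * L / 2 * (∫ x, s x ^ 2 / L ∂P - v) : ℝ) : ℂ)‖
        + ‖((Real.exp (-y) - 1 + y : ℝ) : ℂ)‖ := by
          gcongr
          exact norm_add_le _ _
    _ ≤ _ := by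
          rw [n1, n2]
          linarith

end Pool.Agent.Q203.UIC
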