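import Pool.Agent.Q203.UIC.Clt

/-! Project UIC: tools for the central limit theorem, remainders. -/

set_option autoImplicit false

open MeasureTheory ProbabilityTheory Pool.Agent.Q42.UIC

namespace Pool.Agent.Q203.UIC

variable {S : Type} [MeasurableSpace S]

theorem fst_eq {X Y V : Type} [MeasurableSpace X] [MeasurableSpace Y] [NormedAddCommGroup V]
    [NormedSpace ℝ V] (μ : Measure X) [SFinite μ]
    (K : Kernel X Y) [IsMarkovKernel K] (f : X → V) (hf : AEStronglyMeasurable f μ) :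
    ∫ p, f p.1 ∂(μ ⊗ₘ K) = ∫ x, f x ∂μ := by
  have e0 : (μ ⊗ₘ K).map Prod.fst = μ := Measure.fst_compProd μ K
  have h := integral_map (μ := μ ⊗ₘ K) measurable_fst.aemeasurable (by rw [e0]; exact hf)
  rw [e0] at h
  exact h.symm

theorem conc_sq (ν : Measure S) [IsProbabilityMeasure ν] (B C : Kernel S (ℝ × S))
    [IsMarkovKernel B] [IsMarkovKernel C] (hB : EndInv ν B)
    (h1 : Integrable (fun p : S × (ℝ × S) => p.2.1 ^ 2) (ν ⊗ₘ B))
    (h2 : Integrable (fun p : S × (ℝ × S) => p.2.1 ^ 2) (ν ⊗ₘ C)) :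
    Integrable (fun p : S × (ℝ × S) => p.2.1 ^ 2) (ν ⊗ₘ conc B C) ∧
    ∫ p, p.2.1 ^ 2 ∂(ν ⊗ₘ conc B C) ≤ 4 * ∫ p, p.2.1 ^ 2 ∂(ν ⊗ₘ B) + 4 / 3 * ∫ p, p.2.1 ^ 2 ∂(ν ⊗ₘ C) := by
  have hmc : Measurable (fun p : (S × (ℝ × S)) × (ℝ × S) => (p.1.1, (p.1.2.1 + p.2.1, p.2.2))) := by
    fun_prop
  have hm2 : Measurable (fun p : (S × (ℝ × S)) × (ℝ × S) => (p.1.2.2, p.2)) := by fun_prop
  have hsq : Measurable (fun p : S × (ℝ × S) => p.2.1 ^ 2) := by fun_prop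
  set J := (ν ⊗ₘ B) ⊗ₘ (C.comap (fun p : S × (ℝ × S) => p.2.2) (by fun_prop)) with hJ
  have a1 : Integrable (fun p : (S × (ℝ × S)) × (ℝ × S) => p.1.2.1 ^ 2) J :=
    fst_int (ν ⊗ₘ B) _ h1
  have a2 : Integrable (fun p : (S × (ℝ × S)) × (ℝ × S) => p.2.1 ^ 2) J := snd_int ν B C hB h2
  have e1 : ∫ p, p.1.2.1 ^ 2 ∂J = ∫ p, p.2.1 ^ 2 ∂(ν ⊗ₘ B) :=
    fst_eq (ν ⊗ₘ B) _ (fun p : S × (ℝ × S) => p.2.1 ^ 2) h1.1
  have e2 : ∫ p, p.2.1 ^ 2 ∂J = ∫ p, p.2.1 ^ 2 ∂(ν ⊗ₘ C) := by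
    rw [← marg2 ν B C hB, integral_map hm2.aemeasurable hsq.aestronglyMeasurable]
  have hle : ∀ p : (S × (ℝ × S)) × (ℝ × S), (p.1.2.1 + p.2.1) ^ 2
      ≤ 4 * p.1.2.1 ^ 2 + 4 / 3 * p.2.1 ^ 2 := by
    intro p
    nlinarith [sq_nonneg (3 * p.1.2.1 - p.2.1)]
  have i2 : Integrable (fun p : (S × (ℝ × S)) × (ℝ × S) => 4 * p.1.2.1 ^ 2 + 4 / 3 * p.2.1 ^ 2) J :=
    (a1.const_mul 4).add (a2.const_mul _)
  have i1 : Integrable (fun p : (S × (ℝ × S)) × (ℝ × S) => (p.1.2.1 + p.2.1) ^ 2) J := by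
    refine Integrable.mono' i2 (Measurable.aestronglyMeasurable (by fun_prop)) ?_
    filter_upwards with p
    rw [Real.norm_eq_abs, abs_of_nonneg (sq_nonneg _)]
    exact hle p
  constructor
  · rw [compProd_conc, integrable_map_measure hsq.aestronglyMeasurable hmc.aemeasurable]
    exact i1
  · rw [compProd_conc, integral_map hmc.aemeasurable hsq.aestronglyMeasurable]
    have h3 := integral_mono i1 i2 hle
    rw [integral_add (a1.const_mul 4) (a2.const_mul _), integral_const_mul, integral_const_mul,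
      e1, e2] at h3
    exact h3

theorem rem_sq (hlb : St_lev_eq_blk) (hadd : St_blk_add) (ν : Measure S) [IsProbabilityMeasure ν]
    (b : Kernel S (ℝ × S)) [IsMarkovKernel b] (w : ℝ) (hw : 0 ≤ w)
    (hinv : ∀ l, EndInv ν (lev b l))
    (h2 : ∀ l, Integrable (fun p : S × (ℝ × S) => p.2.1 ^ 2) (ν ⊗ₘ lev b l))
    (hsq : ∀ l, ∫ p, p.2.1 ^ 2 ∂(ν ⊗ₘ lev b l) ≤ 2 ^ l * w) (l r : ℕ) (hr : r < 2 ^ l) :
    Integrable (fun p : S × (ℝ × S) => p.2.1 ^ 2) (ν ⊗ₘ blk b r) ∧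
    ∫ p, p.2.1 ^ 2 ∂(ν ⊗ₘ blk b r) ≤ 9 * w * 2 ^ l := by
  induction l generalizing r with
  | zero =>
    have hr0 : r = 0 := by simpa using hr
    subst hr0
    have hae : ∀ᵐ p ∂(ν ⊗ₘ blk b 0), p.2.1 ^ 2 = 0 := by
      refine Measure.ae_compProd_of_ae_ae (measurableSet_eq_fun (by fun_prop) measurable_const) ?_
      refine Filter.Eventually.of_forall fun x => ?_
      change ∀ᵐ q ∂(Kernel.deterministic (fun x : S => ((0 : ℝ), x)) (by fun_prop) x), q.1 ^ 2 = 0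
      rw [Kernel.deterministic_apply, ae_dirac_iff (measurableSet_eq_fun (by fun_prop) measurable_const)]
      norm_num
    constructor
    · exact (integrable_zero _ _ _).congr (hae.mono fun p hp => hp.symm)
    · rw [integral_congr_ae hae]
      simp
      positivity
  | succ l ih =>
    rcases lt_or_ge r (2 ^ l) with h | h
    · obtain ⟨a1, a2⟩ := ih r h
      refine ⟨a1, a2.trans ?_⟩
      rw [pow_succ]
      have : 0 ≤ w * 2 ^ l := by positivity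
      nlinarith
    · obtain ⟨r', rfl⟩ : ∃ r', r = 2 ^ l + r' := ⟨r - 2 ^ l, by omega⟩
      obtain ⟨a1, a2⟩ := ih r' (by rw [pow_succ] at hr; omega)
      have e : blk b (2 ^ l + r') = conc (lev b l) (blk b r') := by
        rw [hadd b, ← hlb b]
      rw [e]
      obtain ⟨b1, b2⟩ := conc_sq ν (lev b l) (blk b r') (hinv l) (h2 l) a1
      refine ⟨b1, b2.trans ?_⟩
      have h3 := hsq l
      rw [pow_succ]
      have : 0 ≤ w * 2 ^ l := by positivity
      nlinarith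

theorem rem_char (ν : Measure S) [IsProbabilityMeasure ν] (B C : Kernel S (ℝ × S))
    [IsMarkovKernel B] [IsMarkovKernel C] (hB : EndInv ν B)
    (h2 : Integrable (fun p : S × (ℝ × S) => p.2.1 ^ 2) (ν ⊗ₘ C)) (t : ℝ) :
    ‖∫ p, Complex.exp (Complex.I * (t * p.2.1)) ∂(ν ⊗ₘ conc B C)
      - ∫ p, Complex.exp (Complex.I * (t * p.2.1)) ∂(ν ⊗ₘ B)‖
      ≤ |t| * Real.sqrt (∫ p, p.2.1 ^ 2 ∂(ν ⊗ₘ C)) := by
  have hmc : Measurable (fun p : (S × (ℝ × S)) × (ℝ × S) => (p.1.1, (p.1.2.1 + p.2.1, p.2.2))) := by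
    fun_prop
  have hm2 : Measurable (fun p : (S × (ℝ × S)) × (ℝ × S) => (p.1.2.2, p.2)) := by fun_prop
  have hsq : Measurable (fun p : S × (ℝ × S) => p.2.1 ^ 2) := by fun_prop
  have hs : Measurable (fun p : S × (ℝ × S) => p.2.1) := by fun_prop
  have hexp : Measurable (fun p : S × (ℝ × S) => Complex.exp (Complex.I * (t * p.2.1))) := by fun_prop
  set J := (ν ⊗ₘ B) ⊗ₘ (C.comap (fun p : S × (ℝ × S) => p.2.2) (by fun_prop)) with hJ
  have hm : MemLp (fun p : S × (ℝ × S) => p.2.1) 2 (ν ⊗ₘ C) :=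
    (memLp_two_iff_integrable_sq hs.aestronglyMeasurable).2 h2
  have h1 : Integrable (fun p : S × (ℝ × S) => p.2.1) (ν ⊗ₘ C) := hm.integrable (by norm_num)
  have a2 : Integrable (fun p : (S × (ℝ × S)) × (ℝ × S) => |p.2.1|) J := snd_int ν B C hB h1.abs
  have e1 : ∫ p, Complex.exp (Complex.I * (t * p.1.2.1)) ∂J
      = ∫ p, Complex.exp (Complex.I * (t * p.2.1)) ∂(ν ⊗ₘ B) :=
    fst_eq (ν ⊗ₘ B) _ (fun p : S × (ℝ × S) => Complex.exp (Complex.I * (t * p.2.1)))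
      hexp.aestronglyMeasurable
  have e2 : ∫ p, |p.2.1| ∂J = ∫ p, |p.2.1| ∂(ν ⊗ₘ C) := by
    have hab : Measurable (fun p : S × (ℝ × S) => |p.2.1|) := by fun_prop
    rw [← marg2 ν B C hB, integral_map hm2.aemeasurable hab.aestronglyMeasurable]
  have e3 : ∫ p, Complex.exp (Complex.I * (t * p.2.1)) ∂(ν ⊗ₘ conc B C)
      = ∫ p, Complex.exp (Complex.I * (t * ((p.1.2.1 + p.2.1 : ℝ) : ℂ))) ∂J := by
    rw [compProd_conc, integral_map hmc.aemeasurable hexp.aestronglyMeasurable]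
  have hbd : ∀ u : ℝ, ‖Complex.exp (Complex.I * (t * u))‖ = 1 := by
    intro u
    rw [← Complex.ofReal_mul, mul_comm, Complex.norm_exp_ofReal_mul_I]
  have i1 : Integrable (fun p : (S × (ℝ × S)) × (ℝ × S) =>
      Complex.exp (Complex.I * (t * ((p.1.2.1 + p.2.1 : ℝ) : ℂ)))) J := by
    refine Integrable.of_bound (Measurable.aestronglyMeasurable (by fun_prop)) 1 ?_
    filter_upwards with p
    rw [hbd]
  have i2 : Integrable (fun p : (S × (ℝ × S)) × (ℝ × S) =>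
      Complex.exp (Complex.I * (t * p.1.2.1))) J := by
    refine Integrable.of_bound (Measurable.aestronglyMeasurable (by fun_prop)) 1 ?_
    filter_upwards with p
    rw [hbd]
  rw [e3, ← e1, ← integral_sub i1 i2]
  have hle : ∀ p : (S × (ℝ × S)) × (ℝ × S), ‖Complex.exp (Complex.I * (t * ((p.1.2.1 + p.2.1 : ℝ) : ℂ)))
      - Complex.exp (Complex.I * (t * p.1.2.1))‖ ≤ |t| * |p.2.1| := by
    intro p
    have e4 : Complex.exp (Complex.I * (t * ((p.1.2.1 + p.2.1 : ℝ) : ℂ)))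
      - Complex.exp (Complex.I * (t * p.1.2.1)) = Complex.exp (Complex.I * (t * p.1.2.1))
        * (Complex.exp (Complex.I * ((t * p.2.1 : ℝ) : ℂ)) - 1) := by
      rw [mul_sub, ← Complex.exp_add, mul_one]
      congr 2
      push_cast
      ring
    rw [e4, norm_mul, hbd, one_mul, ← abs_mul]
    exact Real.norm_exp_I_mul_ofReal_sub_one_le
  refine (norm_integral_le_integral_norm _).trans ?_
  refine (integral_mono (i1.sub i2).norm (a2.const_mul |t|) hle).trans ?_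
  rw [integral_const_mul, e2]
  refine mul_le_mul_of_nonneg_left ?_ (abs_nonneg _)
  refine Real.le_sqrt_of_sq_le ?_
  have h5 := sq_mean (ν ⊗ₘ C) (fun p : S × (ℝ × S) => |p.2.1|) (by fun_prop)
    (by simpa [sq_abs] using h2)
  simpa [sq_abs] using h5

end Pool.Agent.Q203.UIC
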