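import Pool.Agent.Q203.UIC.Clt2

/-! Project UIC: the main bound of the central limit theorem. -/

set_option autoImplicit false

open MeasureTheory ProbabilityTheory Pool.Agent.Q42.UIC

namespace Pool.Agent.Q203.UIC

variable {S : Type} [MeasurableSpace S]

/-- integral of the local estimate -/
theorem local_int (ν : Measure S) [IsProbabilityMeasure ν] (B : Kernel S (ℝ × S)) [IsMarkovKernel B]
    (L w α β v K δ t : ℝ) (hL : 0 < L) (hv : 0 ≤ v) (hK : 0 < K) (hb : Blk ν B L w α β)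
    (hui : ∫ p, (if K * L ≤ p.2.1 ^ 2 then p.2.1 ^ 2 else 0) ∂(ν ⊗ₘ B) ≤ δ * L) :
    ∫ x, ‖∫ q, Complex.exp (Complex.I * (t * q.1)) ∂(B x) - (Real.exp (-(v * t ^ 2 * L / 2)) : ℂ)‖ ∂ν
      ≤ |t| * Real.sqrt (L * α) + t ^ 2 * L / 2 * (∫ x, |∫ q, q.1 ^ 2 / L ∂(B x) - v| ∂ν)
        + 4 * (|t| ^ 3 * Real.sqrt (K * L) * (L * w) + t ^ 2 * (δ * L)) + (v * t ^ 2 * L / 2) ^ 2 := by
  have i2 : Integrable (fun p : S × (ℝ × S) => p.2.1 ^ 2) (ν ⊗ₘ B) := hb.mem.integrable_sq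
  have i1 : Integrable (fun p : S × (ℝ × S) => p.2.1) (ν ⊗ₘ B) := hb.mem.integrable (by norm_num)
  have hsqm : Measurable (fun p : S × (ℝ × S) => p.2.1 ^ 2) := by fun_prop
  have hifm : Measurable (fun p : S × (ℝ × S) => if K * L ≤ p.2.1 ^ 2 then p.2.1 ^ 2 else 0) :=
    Measurable.ite (measurableSet_le measurable_const hsqm) hsqm measurable_const
  have iif : Integrable (fun p : S × (ℝ × S) => if K * L ≤ p.2.1 ^ 2 then p.2.1 ^ 2 else 0)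
      (ν ⊗ₘ B) := by
    refine Integrable.mono' i2 hifm.aestronglyMeasurable ?_
    filter_upwards with p
    split_ifs
    · rw [Real.norm_eq_abs, abs_of_nonneg (sq_nonneg _)]
    · simp [sq_nonneg]
  have iG : Integrable (fun p : S × (ℝ × S) => |t| ^ 3 * Real.sqrt (K * L) * p.2.1 ^ 2
          + t ^ 2 * (if K * L ≤ p.2.1 ^ 2 then p.2.1 ^ 2 else 0)) (ν ⊗ₘ B) :=
    (i2.const_mul _).add (iif.const_mul _)
  -- integrability of the terms
  have im : Integrable (fun x => ∫ q, q.1 ∂(B x)) ν := inner_int i1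
  have iV : Integrable (fun x => ∫ q, q.1 ^ 2 / L ∂(B x)) ν := inner_int (i2.div_const L)
  have iVv : Integrable (fun x => |∫ q, q.1 ^ 2 / L ∂(B x) - v|) ν := (iV.sub (integrable_const v)).abs
  have iGx : Integrable (fun x => ∫ q, (|t| ^ 3 * Real.sqrt (K * L) * q.1 ^ 2
          + t ^ 2 * (if K * L ≤ q.1 ^ 2 then q.1 ^ 2 else 0)) ∂(B x)) ν := inner_int iG
  have ha := ((Measure.integrable_compProd_iff i2.1).1 i2).1
  have hq : Measurable (fun q : ℝ × S => q.1) := measurable_fst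
  have hle : ∀ᵐ x ∂ν, ‖∫ q, Complex.exp (Complex.I * (t * q.1)) ∂(B x)
      - (Real.exp (-(v * t ^ 2 * L / 2)) : ℂ)‖ ≤ |t| * |∫ q, q.1 ∂(B x)|
        + t ^ 2 * L / 2 * |∫ q, q.1 ^ 2 / L ∂(B x) - v|
        + 4 * ∫ q, (|t| ^ 3 * Real.sqrt (K * L) * q.1 ^ 2
          + t ^ 2 * (if K * L ≤ q.1 ^ 2 then q.1 ^ 2 else 0)) ∂(B x) + (v * t ^ 2 * L / 2) ^ 2 := by
    filter_upwards [ha] with x hx
    exact local_est (B x) (fun q => q.1) hq hx t L v K hL hv hK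
  have j1 : Integrable (fun x => |t| * |∫ q, q.1 ∂(B x)|) ν := im.abs.const_mul _
  have j2 : Integrable (fun x => t ^ 2 * L / 2 * |∫ q, q.1 ^ 2 / L ∂(B x) - v|) ν := iVv.const_mul _
  have j3 : Integrable (fun x => 4 * ∫ q, (|t| ^ 3 * Real.sqrt (K * L) * q.1 ^ 2
          + t ^ 2 * (if K * L ≤ q.1 ^ 2 then q.1 ^ 2 else 0)) ∂(B x)) ν := iGx.const_mul _
  have j12 : Integrable (fun x => |t| * |∫ q, q.1 ∂(B x)|
        + t ^ 2 * L / 2 * |∫ q, q.1 ^ 2 / L ∂(B x) - v|) ν := j1.add j2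
  have j123 : Integrable (fun x => |t| * |∫ q, q.1 ∂(B x)|
        + t ^ 2 * L / 2 * |∫ q, q.1 ^ 2 / L ∂(B x) - v|
        + 4 * ∫ q, (|t| ^ 3 * Real.sqrt (K * L) * q.1 ^ 2
          + t ^ 2 * (if K * L ≤ q.1 ^ 2 then q.1 ^ 2 else 0)) ∂(B x)) ν := j12.add j3
  have hint := integral_mono_of_nonneg (Filter.Eventually.of_forall fun x => norm_nonneg _)
    (j123.add (integrable_const ((v * t ^ 2 * L / 2) ^ 2))) hle
  refine hint.trans ?_
  have s1 : ∫ x, (|t| * |∫ q, q.1 ∂(B x)|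
        + t ^ 2 * L / 2 * |∫ q, q.1 ^ 2 / L ∂(B x) - v|
        + 4 * ∫ q, (|t| ^ 3 * Real.sqrt (K * L) * q.1 ^ 2
          + t ^ 2 * (if K * L ≤ q.1 ^ 2 then q.1 ^ 2 else 0)) ∂(B x) + (v * t ^ 2 * L / 2) ^ 2) ∂ν
      = |t| * (∫ x, |∫ q, q.1 ∂(B x)| ∂ν) + t ^ 2 * L / 2 * (∫ x, |∫ q, q.1 ^ 2 / L ∂(B x) - v| ∂ν)
        + 4 * (∫ p, (|t| ^ 3 * Real.sqrt (K * L) * p.2.1 ^ 2
          + t ^ 2 * (if K * L ≤ p.2.1 ^ 2 then p.2.1 ^ 2 else 0)) ∂(ν ⊗ₘ B))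
        + (v * t ^ 2 * L / 2) ^ 2 := by
    rw [integral_add j123 (integrable_const _), integral_add j12 j3, integral_add j1 j2,
      integral_const_mul, integral_const_mul, integral_const_mul, Measure.integral_compProd iG]
    simp
  have s2 : ∫ p, (|t| ^ 3 * Real.sqrt (K * L) * p.2.1 ^ 2
          + t ^ 2 * (if K * L ≤ p.2.1 ^ 2 then p.2.1 ^ 2 else 0)) ∂(ν ⊗ₘ B)
      ≤ |t| ^ 3 * Real.sqrt (K * L) * (L * w) + t ^ 2 * (δ * L) := by
    rw [integral_add (i2.const_mul _) (iif.const_mul _), integral_const_mul, integral_const_mul]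
    have h1 := mul_le_mul_of_nonneg_left hb.sq
      (by positivity : 0 ≤ |t| ^ 3 * Real.sqrt (K * L))
    have h2 := mul_le_mul_of_nonneg_left hui (sq_nonneg t)
    linarith
  have s3 : ∫ x, |∫ q, q.1 ∂(B x)| ∂ν ≤ Real.sqrt (L * α) := by
    refine Real.le_sqrt_of_sq_le ?_
    have hm0 : Measurable (fun x => ∫ q, q.1 ∂(B x)) := meas_ki B _ measurable_fst
    have i5 : Integrable (fun x => (∫ q, q.1 ∂(B x)) ^ 2) ν := by
      refine Integrable.mono' (inner_int i2) (Measurable.aestronglyMeasurable (by fun_prop)) ?_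
      filter_upwards [ha] with x hx
      rw [Real.norm_eq_abs, abs_of_nonneg (sq_nonneg _)]
      exact sq_mean (B x) _ hq hx
    have h5 := sq_mean ν (fun x => |∫ q, q.1 ∂(B x)|) (by fun_prop) (by simpa [sq_abs] using i5)
    refine h5.trans ?_
    simp only [sq_abs]
    exact hb.fwd
  have s4 := mul_le_mul_of_nonneg_left s3 (abs_nonneg t)
  calc _ = _ := s1
    _ ≤ _ := by linarith

/-- the main bound -/
theorem core_bd (hchar : St_char_blocks) (hlb : St_lev_eq_blk) (hmul : St_blk_mul)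
    (hadd : St_blk_add) (ν : Measure S) [IsProbabilityMeasure ν]
    (b : Kernel S (ℝ × S)) [IsMarkovKernel b] (w v : ℝ) (hw : 0 ≤ w) (hv : 0 ≤ v)
    (hinv : ∀ l, EndInv ν (lev b l))
    (h2 : ∀ l, Integrable (fun p : S × (ℝ × S) => p.2.1 ^ 2) (ν ⊗ₘ lev b l))
    (hsq : ∀ l, ∫ p, p.2.1 ^ 2 ∂(ν ⊗ₘ lev b l) ≤ 2 ^ l * w)
    (l m r : ℕ) (hm : 1 ≤ m) (hr : r < 2 ^ l) (α β K δ τ : ℝ) (hα : 0 ≤ α) (hK : 0 < K) (hδ : 0 ≤ δ)
    (hb : Blk ν (lev b l) (2 ^ l) w α β)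
    (hui : ∫ p, (if K * 2 ^ l ≤ p.2.1 ^ 2 then p.2.1 ^ 2 else 0) ∂(ν ⊗ₘ lev b l) ≤ δ * 2 ^ l) :
    ‖∫ p, Complex.exp (Complex.I * (τ / Real.sqrt ((m * 2 ^ l + r : ℕ) : ℝ) * p.2.1))
        ∂(ν ⊗ₘ blk b (m * 2 ^ l + r)) - Complex.exp (-(v * τ ^ 2 / 2 : ℝ))‖
      ≤ 3 * Real.sqrt w * (|τ| / Real.sqrt m) + Real.sqrt m * |τ| * Real.sqrt α
        + τ ^ 2 / 2 * (∫ x, |∫ q, q.1 ^ 2 / 2 ^ l ∂(lev b l x) - v| ∂ν)
        + 4 * (Real.sqrt K * w * |τ| ^ 3 / Real.sqrt m + τ ^ 2 * δ)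
        + v ^ 2 * τ ^ 4 / (4 * m) + v * τ ^ 2 / (2 * m) := by
  set N : ℕ := m * 2 ^ l + r with hN
  set L : ℝ := 2 ^ l with hL
  have hL0 : 0 < L := by positivity
  have hm0 : (0 : ℝ) < m := by exact_mod_cast hm
  have hNL : (m : ℝ) * L ≤ N := by
    rw [hN]; push_cast; linarith [(Nat.cast_nonneg r : (0 : ℝ) ≤ r)]
  have hN0 : (0 : ℝ) < N := lt_of_lt_of_le (by positivity) hNL
  have hsN : 0 < Real.sqrt N := Real.sqrt_pos.2 hN0
  have hsm : 0 < Real.sqrt m := Real.sqrt_pos.2 hm0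
  set t : ℝ := τ / Real.sqrt N with ht
  have ht2 : t ^ 2 = τ ^ 2 / N := by rw [ht, div_pow, Real.sq_sqrt hN0.le]
  -- the scale
  set y : ℝ := |t| * Real.sqrt L with hy
  have hy0 : 0 ≤ y := by positivity
  have hy2 : y ^ 2 = t ^ 2 * L := by rw [hy, mul_pow, sq_abs, Real.sq_sqrt hL0.le]
  have hyx : y ≤ |τ| / Real.sqrt m := by
    rw [← abs_of_nonneg hy0]
    rw [← abs_of_nonneg (by positivity : 0 ≤ |τ| / Real.sqrt m)]
    refine sq_le_sq.1 ?_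
    rw [hy2, ht2, div_pow, sq_abs, Real.sq_sqrt hm0.le, div_mul_eq_mul_div,
      div_le_div_iff₀ hN0 hm0]
    have := mul_le_mul_of_nonneg_left hNL (sq_nonneg τ)
    linarith
  set x : ℝ := |τ| / Real.sqrt m with hx
  have hx0 : 0 ≤ x := by positivity
  have hxm : m * x ^ 2 = τ ^ 2 := by
    rw [hx, div_pow, sq_abs, Real.sq_sqrt hm0.le]
    field_simp
  have hmB : IsMarkovKernel (blk (lev b l) m) := inferInstance
  -- decomposition
  have eN : blk b N = conc (blk (lev b l) m) (blk b r) := by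
    rw [hN, hadd b, hlb b l, hmul b]
  have hEB : EndInv ν (blk (lev b l) m) := Pool.Agent.Q42.UIC.NI.endInv_blk ν (lev b l) (hinv l) m
  obtain ⟨c1, c2⟩ := rem_sq hlb hadd ν b w hw hinv h2 hsq l r hr
  -- step A
  have A := rem_char ν (blk (lev b l) m) (blk b r) hEB c1 t
  rw [← eN] at A
  have A2 : |t| * Real.sqrt (∫ p, p.2.1 ^ 2 ∂(ν ⊗ₘ blk b r)) ≤ 3 * Real.sqrt w * x := by
    have h3 : Real.sqrt (∫ p, p.2.1 ^ 2 ∂(ν ⊗ₘ blk b r)) ≤ 3 * Real.sqrt w * Real.sqrt L := by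
      refine (Real.sqrt_le_sqrt c2).trans (le_of_eq ?_)
      rw [Real.sqrt_mul (by positivity), Real.sqrt_mul (by norm_num)]
      have : Real.sqrt 9 = 3 := by
        rw [show (9 : ℝ) = 3 ^ 2 by norm_num, Real.sqrt_sq (by norm_num)]
      rw [this]
    calc |t| * Real.sqrt (∫ p, p.2.1 ^ 2 ∂(ν ⊗ₘ blk b r)) ≤ |t| * (3 * Real.sqrt w * Real.sqrt L) :=
          mul_le_mul_of_nonneg_left h3 (abs_nonneg _)
      _ = 3 * Real.sqrt w * y := by rw [hy]; ring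
      _ ≤ 3 * Real.sqrt w * x := mul_le_mul_of_nonneg_left hyx (by positivity)
  -- step B
  set ρ : ℝ := Real.exp (-(v * t ^ 2 * L / 2)) with hρ
  have hρn : ‖(ρ : ℂ)‖ ≤ 1 := by
    rw [Complex.norm_real, Real.norm_eq_abs, abs_of_pos (Real.exp_pos _)]
    exact Real.exp_le_one_iff.2 (by have : 0 ≤ v * t ^ 2 * L / 2 := by positivity
                                    linarith)
  have B := hchar ν (lev b l) (hinv l) t (ρ : ℂ) hρn m
  have B2 := local_int ν (lev b l) L w α β v K δ t hL0 hv hK hb hui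
  set D : ℝ := ∫ x, |∫ q, q.1 ^ 2 / L ∂(lev b l x) - v| ∂ν with hD
  have hD0 : 0 ≤ D := integral_nonneg fun x => abs_nonneg _
  have B3 : (m : ℝ) * (|t| * Real.sqrt (L * α) + t ^ 2 * L / 2 * D
      + 4 * (|t| ^ 3 * Real.sqrt (K * L) * (L * w) + t ^ 2 * (δ * L)) + (v * t ^ 2 * L / 2) ^ 2)
      ≤ Real.sqrt m * |τ| * Real.sqrt α + τ ^ 2 / 2 * D
        + 4 * (Real.sqrt K * w * |τ| ^ 3 / Real.sqrt m + τ ^ 2 * δ) + v ^ 2 * τ ^ 4 / (4 * m) := by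
    have q1 : |t| * Real.sqrt (L * α) = y * Real.sqrt α := by
      rw [Real.sqrt_mul hL0.le, hy]; ring
    have q2 : |t| ^ 3 * Real.sqrt (K * L) * (L * w) = y ^ 3 * (Real.sqrt K * w) := by
      rw [Real.sqrt_mul hK.le, hy]
      have : L = Real.sqrt L ^ 2 := (Real.sq_sqrt hL0.le).symm
      calc |t| ^ 3 * (Real.sqrt K * Real.sqrt L) * (L * w)
          = |t| ^ 3 * (Real.sqrt K * Real.sqrt L) * (Real.sqrt L ^ 2 * w) := by rw [← this]
        _ = _ := by ring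
    have q3 : t ^ 2 * L / 2 * D = y ^ 2 * D / 2 := by rw [hy2]; ring
    have q4 : t ^ 2 * (δ * L) = y ^ 2 * δ := by rw [hy2]; ring
    have q5 : (v * t ^ 2 * L / 2) ^ 2 = v ^ 2 * y ^ 4 / 4 := by
      have : y ^ 4 = (t ^ 2 * L) ^ 2 := by rw [← hy2]; ring
      rw [this]; ring
    rw [q1, q2, q3, q4, q5]
    have hy2' : y ^ 2 ≤ x ^ 2 := pow_le_pow_left₀ hy0 hyx 2
    have hy3' : y ^ 3 ≤ x ^ 3 := pow_le_pow_left₀ hy0 hyx 3
    have hy4' : y ^ 4 ≤ x ^ 4 := pow_le_pow_left₀ hy0 hyx 4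
    have hKw : 0 ≤ Real.sqrt K * w := by positivity
    have r1 : m * (y * Real.sqrt α) ≤ Real.sqrt m * |τ| * Real.sqrt α := by
      have e1 : (m : ℝ) * x = Real.sqrt m * |τ| := by
        rw [hx]
        have : (m : ℝ) = Real.sqrt m * Real.sqrt m := (Real.mul_self_sqrt hm0.le).symm
        calc (m : ℝ) * (|τ| / Real.sqrt m) = Real.sqrt m * Real.sqrt m * (|τ| / Real.sqrt m) := by
              rw [← this]
          _ = _ := by field_simp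
      calc (m : ℝ) * (y * Real.sqrt α) ≤ m * (x * Real.sqrt α) := by gcongr
        _ = (m * x) * Real.sqrt α := by ring
        _ = _ := by rw [e1]
    have r2 : m * (y ^ 2 * D / 2) ≤ τ ^ 2 / 2 * D := by
      calc (m : ℝ) * (y ^ 2 * D / 2) ≤ m * (x ^ 2 * D / 2) := by gcongr
        _ = (m * x ^ 2) / 2 * D := by ring
        _ = _ := by rw [hxm]
    have r3 : m * (y ^ 3 * (Real.sqrt K * w)) ≤ Real.sqrt K * w * |τ| ^ 3 / Real.sqrt m := by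
      calc (m : ℝ) * (y ^ 3 * (Real.sqrt K * w)) ≤ m * (x ^ 3 * (Real.sqrt K * w)) := by gcongr
        _ = (m * x ^ 2) * x * (Real.sqrt K * w) := by ring
        _ = _ := by
          rw [hxm, hx, ← sq_abs τ]
          ring
    have r4 : m * (y ^ 2 * δ) ≤ τ ^ 2 * δ := by
      calc (m : ℝ) * (y ^ 2 * δ) ≤ m * (x ^ 2 * δ) := by gcongr
        _ = (m * x ^ 2) * δ := by ring
        _ = _ := by rw [hxm]
    have r5 : m * (v ^ 2 * y ^ 4 / 4) ≤ v ^ 2 * τ ^ 4 / (4 * m) := by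
      calc (m : ℝ) * (v ^ 2 * y ^ 4 / 4) ≤ m * (v ^ 2 * x ^ 4 / 4) := by gcongr
        _ = v ^ 2 * (m * x ^ 2) ^ 2 / (4 * m) := by field_simp
        _ = _ := by rw [hxm]; ring
    nlinarith
  -- step C
  have C1 : ‖(ρ : ℂ) ^ m - Complex.exp (-(v * τ ^ 2 / 2 : ℝ))‖ ≤ v * τ ^ 2 / (2 * m) := by
    have e1 : (ρ : ℂ) ^ m = ((Real.exp (-(m * (v * t ^ 2 * L / 2))) : ℝ) : ℂ) := by
      rw [← Complex.ofReal_pow, hρ, ← Real.exp_nat_mul]
      congr 2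
      ring
    have e2 : Complex.exp (-(v * τ ^ 2 / 2 : ℝ)) = ((Real.exp (-(v * τ ^ 2 / 2)) : ℝ) : ℂ) := by
      push_cast
      rfl
    rw [e1, e2, ← Complex.ofReal_sub, Complex.norm_real, Real.norm_eq_abs]
    refine (exp_lip _ _ (by positivity) (by positivity)).trans ?_
    have e3 : m * (v * t ^ 2 * L / 2) - v * τ ^ 2 / 2 = -(v * τ ^ 2 / 2 * (r / N)) := by
      rw [ht2]
      have e4 : (r : ℝ) = N - m * L := by
        rw [hN]; push_cast; ring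
      rw [e4]
      field_simp
      ring
    rw [e3, abs_neg, abs_of_nonneg (by positivity)]
    have e5 : (r : ℝ) / N ≤ 1 / m := by
      rw [div_le_div_iff₀ hN0 hm0]
      have : (r : ℝ) ≤ L := by
        rw [hL]; exact_mod_cast hr.le
      nlinarith
    calc v * τ ^ 2 / 2 * (r / N) ≤ v * τ ^ 2 / 2 * (1 / m) := by gcongr
      _ = _ := by field_simp
  -- total
  have eF : (∫ p, Complex.exp (Complex.I * (τ / Real.sqrt (N : ℝ) * p.2.1)) ∂(ν ⊗ₘ blk b N))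
      = ∫ p, Complex.exp (Complex.I * (t * p.2.1)) ∂(ν ⊗ₘ blk b N) := by
    rw [ht]
    push_cast
    rfl
  rw [eF]
  have B4 : ‖∫ p, Complex.exp (Complex.I * (t * p.2.1)) ∂(ν ⊗ₘ blk (lev b l) m) - (ρ : ℂ) ^ m‖
      ≤ Real.sqrt m * |τ| * Real.sqrt α + τ ^ 2 / 2 * D
        + 4 * (Real.sqrt K * w * |τ| ^ 3 / Real.sqrt m + τ ^ 2 * δ) + v ^ 2 * τ ^ 4 / (4 * m) := by
    refine B.trans ((mul_le_mul_of_nonneg_left B2 hm0.le).trans B3)
  have tri1 := norm_sub_le_norm_sub_add_norm_sub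
    (∫ p, Complex.exp (Complex.I * (t * p.2.1)) ∂(ν ⊗ₘ blk b N))
    (∫ p, Complex.exp (Complex.I * (t * p.2.1)) ∂(ν ⊗ₘ blk (lev b l) m))
    (Complex.exp (-(v * τ ^ 2 / 2 : ℝ)))
  have tri2 := norm_sub_le_norm_sub_add_norm_sub
    (∫ p, Complex.exp (Complex.I * (t * p.2.1)) ∂(ν ⊗ₘ blk (lev b l) m)) ((ρ : ℂ) ^ m)
    (Complex.exp (-(v * τ ^ 2 / 2 : ℝ)))
  linarith

end Pool.Agent.Q203.UIC
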