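import Pool.Agent.Q203.UIC.StepLib2

/-! Project UIC: the Markov operator on integrable functions. -/

set_option autoImplicit false

open MeasureTheory ProbabilityTheory Pool.Agent.Q42.UIC

namespace Pool.Agent.Q203.UIC

variable {S : Type} [MeasurableSpace S]

/-- the Markov operator -/
noncomputable def TT (Q : Kernel S S) (h : S → ℝ) : S → ℝ := fun y => ∫ z, h z ∂(Q y)

/-- measurable and integrable -/
def Good (ν : Measure S) (h : S → ℝ) : Prop := Measurable h ∧ Integrable h ν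

section

variable (ν : Measure S) [IsProbabilityMeasure ν] (Q : Kernel S S) [IsMarkovKernel Q]
  (hν : ν.bind Q = ν)

include hν

theorem lift_int {h : S → ℝ} (hh : Integrable h ν) :
    Integrable (fun p : S × S => h p.2) (ν ⊗ₘ Q) := by
  have e0 : (ν ⊗ₘ Q).map Prod.snd = ν := by
    have := Measure.snd_compProd ν Q
    unfold Measure.snd at this
    rw [this]
    exact hν
  have i0 : Integrable h ((ν ⊗ₘ Q).map Prod.snd) := by
    rw [e0]; exact hh
  exact i0.comp_measurable measurable_snd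

theorem T_good {h : S → ℝ} (hh : Good ν h) : Good ν (TT Q h) :=
  ⟨meas_ki Q h hh.1, inner_int (lift_int ν Q hν hh.2)⟩

theorem T_int {h : S → ℝ} (hh : Good ν h) : ∫ y, TT Q h y ∂ν = ∫ y, h y ∂ν := by
  have e1 := Measure.integral_compProd (lift_int ν Q hν hh.2)
  have e0 : (ν ⊗ₘ Q).map Prod.snd = ν := by
    have := Measure.snd_compProd ν Q
    unfold Measure.snd at this
    rw [this]
    exact hν
  have e2 : ∫ y, h y ∂((ν ⊗ₘ Q).map Prod.snd) = ∫ p, h p.2 ∂(ν ⊗ₘ Q) :=
    integral_map measurable_snd.aemeasurable hh.1.aestronglyMeasurable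
  rw [e0] at e2
  rw [e2, e1]
  rfl

theorem T_ae {h : S → ℝ} (hh : Good ν h) : ∀ᵐ y ∂ν, Integrable h (Q y) := by
  have i1 := lift_int ν Q hν hh.2
  exact ((Measure.integrable_compProd_iff i1.1).1 i1).1

theorem T_contr {h1 h2 : S → ℝ} (hh1 : Good ν h1) (hh2 : Good ν h2) :
    ∫ y, |TT Q h1 y - TT Q h2 y| ∂ν ≤ ∫ y, |h1 y - h2 y| ∂ν := by
  have g : Good ν (fun y => |h1 y - h2 y|) := by
    refine ⟨?_, (hh1.2.sub hh2.2).abs⟩
    have := hh1.1
    have := hh2.1
    fun_prop
  rw [← T_int ν Q hν g]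
  refine integral_mono_ae ((T_good ν Q hν hh1).2.sub (T_good ν Q hν hh2).2).abs
    (T_good ν Q hν g).2 ?_
  filter_upwards [T_ae ν Q hν hh1, T_ae ν Q hν hh2] with y i1 i2
  simp only [TT]
  rw [← integral_sub i1 i2]
  exact abs_integral_le_integral_abs

theorem Tit_good {h : S → ℝ} (hh : Good ν h) (i : ℕ) : Good ν ((TT Q)^[i] h) := by
  induction i with
  | zero => exact hh
  | succ i ih =>
    rw [Function.iterate_succ_apply']
    exact T_good ν Q hν ih

theorem Tit_contr {h1 h2 : S → ℝ} (hh1 : Good ν h1) (hh2 : Good ν h2) (i : ℕ) :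
    ∫ y, |(TT Q)^[i] h1 y - (TT Q)^[i] h2 y| ∂ν ≤ ∫ y, |h1 y - h2 y| ∂ν := by
  induction i with
  | zero => exact le_rfl
  | succ i ih =>
    rw [Function.iterate_succ_apply', Function.iterate_succ_apply']
    exact (T_contr ν Q hν (Tit_good ν Q hν hh1 i) (Tit_good ν Q hν hh2 i)).trans ih

omit hν [IsProbabilityMeasure ν] in
theorem tri {h1 h2 h3 : S → ℝ} (g1 : Integrable h1 ν) (g2 : Integrable h2 ν) (g3 : Integrable h3 ν) :
    ∫ y, |h1 y - h3 y| ∂ν ≤ ∫ y, |h1 y - h2 y| ∂ν + ∫ y, |h2 y - h3 y| ∂ν := by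
  have i1 : Integrable (fun y => |h1 y - h2 y|) ν := (g1.sub g2).abs
  have i2 : Integrable (fun y => |h2 y - h3 y|) ν := (g2.sub g3).abs
  have i3 : Integrable (fun y => |h1 y - h3 y|) ν := (g1.sub g3).abs
  rw [← integral_add i1 i2]
  exact integral_mono i3 (i1.add i2) fun y => abs_sub_le _ _ _

theorem Tit_near {h : S → ℝ} (hh : Good ν h) (D : ℝ) (hD : ∫ y, |h y - TT Q h y| ∂ν ≤ D) (i : ℕ) :
    ∫ y, |h y - (TT Q)^[i] h y| ∂ν ≤ i * D := by
  induction i with
  | zero => simp
  | succ i ih =>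
    have h1 := tri ν hh.2 (Tit_good ν Q hν hh i).2 (Tit_good ν Q hν hh (i + 1)).2
    have h2 := Tit_contr ν Q hν hh (T_good ν Q hν hh) i
    rw [← Function.iterate_succ_apply] at h2
    push_cast
    linarith

omit hν in
theorem Tit_smul (h : S → ℝ) (c : ℝ) (i : ℕ) :
    (TT Q)^[i] (fun y => c * h y) = fun y => c * (TT Q)^[i] h y := by
  induction i generalizing h with
  | zero => rfl
  | succ i ih =>
    rw [Function.iterate_succ_apply, Function.iterate_succ_apply]
    have : TT Q (fun y => c * h y) = fun y => c * TT Q h y := by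
      funext y
      simp only [TT]
      exact integral_const_mul _ _
    rw [this, ih]

end

/-- bounds for the energies -/
theorem ae_conc {E : Type} [MeasurableSpace E] [Add E] [MeasurableAdd₂ E] (b c : Kernel S (E × S))
    [IsMarkovKernel b] [IsMarkovKernel c] (P1 P2 P3 : E × S → Prop)
    (hP1 : MeasurableSet {q | P3 q}) (h1 : ∀ x, ∀ᵐ q ∂(b x), P1 q) (h2 : ∀ x, ∀ᵐ q ∂(c x), P2 q)
    (h : ∀ q r, P1 q → P2 r → P3 (q.1 + r.1, r.2)) (x : S) : ∀ᵐ q ∂(conc b c x), P3 q := by
  have hs : MeasurableSet {q : E × S | ¬ P3 q} := hP1.compl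
  have hm : Measurable (Set.indicator {q : E × S | ¬ P3 q} (fun _ => (1 : ENNReal))) :=
    measurable_const.indicator hs
  rw [ae_iff, ← lintegral_indicator_one hs]
  change ∫⁻ q, Set.indicator {q : E × S | ¬ P3 q} (fun _ => (1 : ENNReal)) q ∂(conc b c x) = 0
  rw [lintegral_conc _ _ _ _ hm]
  have h3 : ∀ᵐ q ∂(b x), ∫⁻ r, Set.indicator {q : E × S | ¬ P3 q} (fun _ => (1 : ENNReal))
      (q.1 + r.1, r.2) ∂(c q.2) = 0 := by
    filter_upwards [h1 x] with q hq
    have h4 : ∀ᵐ r ∂(c q.2), Set.indicator {q : E × S | ¬ P3 q} (fun _ => (1 : ENNReal))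
      (q.1 + r.1, r.2) = 0 := by
      filter_upwards [h2 q.2] with r hr
      have := h q r hq hr
      simp [Set.indicator, this]
    rw [lintegral_congr_ae h4]
    simp
  rw [lintegral_congr_ae h3]
  simp

theorem ae_lev_enr (b : Kernel S (ℝ × S)) [IsMarkovKernel b] (K : ℝ) (hK : 0 ≤ K) (j : ℕ) (x : S) :
    ∀ᵐ q ∂(lev (enr K b) j x), 0 ≤ q.1.2 ∧ q.1.2 ≤ 2 ^ j * K := by
  have me : Measurable (fun q : ℝ × S => ((q.1, min (q.1 ^ 2) K), q.2)) := by fun_prop
  have mk : IsMarkovKernel (enr K b) := by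
    unfold enr
    exact Kernel.IsMarkovKernel.map _ me
  have hset : ∀ C : ℝ, MeasurableSet {p : (ℝ × ℝ) × S | 0 ≤ p.1.2 ∧ p.1.2 ≤ C} := fun C =>
    MeasurableSet.inter (measurableSet_le measurable_const (measurable_snd.comp measurable_fst))
      (measurableSet_le (measurable_snd.comp measurable_fst) measurable_const)
  induction j generalizing x with
  | zero =>
    change ∀ᵐ q ∂(enr K b x), 0 ≤ q.1.2 ∧ q.1.2 ≤ 2 ^ 0 * K
    unfold enr
    rw [Kernel.map_apply _ me, ae_map_iff me.aemeasurable (hset _)]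
    filter_upwards with q
    refine ⟨le_min (sq_nonneg _) hK, ?_⟩
    rw [pow_zero, one_mul]
    exact min_le_right _ _
  | succ j ih =>
    refine ae_conc (lev (enr K b) j) (lev (enr K b) j) _ _ _ (hset _) ih ih ?_ x
    intro q r hq hr
    simp only [Prod.snd_add]
    rw [pow_succ]
    constructor
    · linarith [hq.1, hr.1]
    · linarith [hq.2, hr.2]

theorem lev_lev {E : Type} [MeasurableSpace E] [Add E] (b : Kernel S (E × S)) (k j : ℕ) :
    lev (lev b k) j = lev b (k + j) := by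
  induction j with
  | zero => rfl
  | succ j ih =>
    change conc (lev (lev b k) j) (lev (lev b k) j) = conc (lev b (k + j)) (lev b (k + j))
    rw [ih]

end Pool.Agent.Q203.UIC
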