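import Pool.Agent.Q42.UIC.Stm

/-! Project UIC: the abstract step. -/

set_option autoImplicit false

open MeasureTheory ProbabilityTheory Pool.Agent.Q42.UIC

namespace Pool.Agent.Q203.UIC

variable {S : Type} [MeasurableSpace S] {E : Type} [MeasurableSpace E]

/-- the right kernel -/
noncomputable def RK (b : Kernel S (E × S)) (H : S → ℝ) : Kernel S (E × ℝ) :=
  b.map (fun q : E × S => (q.1, H q.2))

theorem meas_RK {H : S → ℝ} (hH : Measurable H) : Measurable (fun q : E × S => (q.1, H q.2)) := by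
  fun_prop

theorem RK_markov (b : Kernel S (E × S)) [IsMarkovKernel b] {H : S → ℝ} (hH : Measurable H) :
    IsMarkovKernel (RK b H) := Kernel.IsMarkovKernel.map _ (meas_RK hH)

theorem int_RK (b : Kernel S (E × S)) [IsMarkovKernel b] {H : S → ℝ} (hH : Measurable H)
    (F : E × ℝ → ℝ) (hF : Measurable F) (y : S) :
    ∫ p, F p ∂(RK b H y) = ∫ q, F (q.1, H q.2) ∂(b y) := by
  unfold RK
  rw [Kernel.map_apply _ (meas_RK hH), integral_map (meas_RK hH).aemeasurable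
    hF.aestronglyMeasurable]

theorem integrable_RK (b : Kernel S (E × S)) [IsMarkovKernel b] {H : S → ℝ} (hH : Measurable H)
    (F : E × ℝ → ℝ) (hF : Measurable F) (y : S) :
    Integrable F (RK b H y) ↔ Integrable (fun q : E × S => F (q.1, H q.2)) (b y) := by
  unfold RK
  rw [Kernel.map_apply _ (meas_RK hH), integrable_map_measure hF.aestronglyMeasurable
    (meas_RK hH).aemeasurable]
  rfl

section J1

variable (ν : Measure S) [IsProbabilityMeasure ν] (b : Kernel S (E × S)) [IsMarkovKernel b]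
  (L : Kernel S (E × ℝ)) [IsMarkovKernel L] (G : S → ℝ) (hG : Measurable G)
  (h1 : (ν ⊗ₘ b).map (fun p : S × (E × S) => (p.2.2, (p.2.1, G p.1))) = ν ⊗ₘ L)

include hG h1

theorem J1_integrable (F : S × (E × ℝ) → ℝ) (hF : Measurable F) :
    Integrable F (ν ⊗ₘ L) ↔ Integrable (fun p : S × (E × S) => F (p.2.2, (p.2.1, G p.1))) (ν ⊗ₘ b) := by
  have hm : Measurable (fun p : S × (E × S) => (p.2.2, (p.2.1, G p.1))) := by fun_prop
  rw [← h1, integrable_map_measure hF.aestronglyMeasurable hm.aemeasurable]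
  rfl

theorem J1_integral (F : S × (E × ℝ) → ℝ) (hF : Measurable F) :
    ∫ z, F z ∂(ν ⊗ₘ L) = ∫ p, F (p.2.2, (p.2.1, G p.1)) ∂(ν ⊗ₘ b) := by
  have hm : Measurable (fun p : S × (E × S) => (p.2.2, (p.2.1, G p.1))) := by fun_prop
  rw [← h1, integral_map hm.aemeasurable hF.aestronglyMeasurable]

theorem J1_ae (P : E × ℝ → Prop) (hP : MeasurableSet {p | P p})
    (h : ∀ x e, P (e, G x)) : ∀ᵐ y ∂ν, ∀ᵐ p ∂(L y), P p := by
  have hm : Measurable (fun p : S × (E × S) => (p.2.2, (p.2.1, G p.1))) := by fun_prop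
  have h2 : ∀ᵐ z ∂(ν ⊗ₘ L), P z.2 := by
    have hP2 : MeasurableSet {z : S × (E × ℝ) | P z.2} := measurable_snd hP
    rw [← h1, ae_map_iff hm.aemeasurable hP2]
    exact Filter.Eventually.of_forall fun p => h _ _
  exact Measure.ae_ae_of_ae_compProd h2

end J1

/-- integrable times bounded -/
theorem int_mul_bdd {X : Type} [MeasurableSpace X] {μ : Measure X} {f g : X → ℝ}
    (hf : Integrable f μ) (hg : Measurable g) {C : ℝ} (hC : ∀ x, |g x| ≤ C) :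
    Integrable (fun x => f x * g x) μ := by
  refine (hf.mul_bdd (c := C) hg.aestronglyMeasurable ?_)
  exact Filter.Eventually.of_forall fun x => by simpa using hC x

theorem inner_int {X Y : Type} [MeasurableSpace X] [MeasurableSpace Y] {μ : Measure X} [SFinite μ]
    {κ : Kernel X Y} [IsSFiniteKernel κ] {f : X × Y → ℝ} (hf : Integrable f (μ ⊗ₘ κ)) :
    Integrable (fun x => ∫ y, f (x, y) ∂(κ x)) μ := by
  unfold Measure.compProd at hf
  have h1 := hf.integral_compProd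
  simpa using h1

theorem abs_step [Add E] [MeasurableAdd₂ E]
    (ν : Measure S) [IsProbabilityMeasure ν] (b : Kernel S (E × S)) [IsMarkovKernel b]
    (hinv : EndInv ν b) (L : Kernel S (E × ℝ)) [IsMarkovKernel L]
    (G H Gt Ht : S → ℝ) (hG : Measurable G) (hH : Measurable H) (hGt : Measurable Gt)
    (hHt : Measurable Ht) (C : ℝ) (cG : ∀ x, |G x| ≤ C) (cH : ∀ x, |H x| ≤ C)
    (cGt : ∀ x, |Gt x| ≤ C) (cHt : ∀ x, |Ht x| ≤ C)
    (h1 : (ν ⊗ₘ b).map (fun p : S × (E × S) => (p.2.2, (p.2.1, G p.1))) = ν ⊗ₘ L)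
    (h2 : ((ν ⊗ₘ b) ⊗ₘ (b.comap (fun p : S × (E × S) => p.2.2) (by fun_prop))).map
        (fun p : (S × (E × S)) × (E × S) => (p.1.2.2, ((p.1.2.1, G p.1.1), (p.2.1, H p.2.2))))
        = ν ⊗ₘ (L ×ₖ (b.map (fun q : E × S => (q.1, H q.2)))))
    (Ψ Ψ2 : E → ℝ) (hΨ : Measurable Ψ) (hΨ2 : Measurable Ψ2)
    (iΨ : Integrable (fun p : S × (E × S) => Ψ p.2.1) (ν ⊗ₘ b))
    (iΨ2 : Integrable (fun p : S × (E × S) => Ψ2 p.2.1) (ν ⊗ₘ conc b b))
    (κ : ℝ → ℝ) (hκ : Measurable κ) (iκG : Integrable (fun x => κ (G x)) ν)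
    (iκH : Integrable (fun x => κ (H x)) ν) (iκGt : Integrable (fun x => κ (Gt x)) ν)
    (iκHt : Integrable (fun x => κ (Ht x)) ν) (Err : S → ℝ) (iErr : Integrable Err ν)
    (hpt : ∀ᵐ y ∂ν, ((∫ p, Ψ p.1 * p.2 ∂(L y)) * Ht y + κ (Ht y)) / 2
        + ((∫ p, Ψ p.1 * p.2 ∂(RK b H y)) * Gt y + κ (Gt y)) / 2 - Err y
      ≤ ∫ z, Ψ2 (z.1.1 + z.2.1) * z.1.2 * z.2.2 ∂((L y).prod (RK b H y))
        + (∫ p, κ p.2 ∂(L y)) / 2 + (∫ p, κ p.2 ∂(RK b H y)) / 2)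
    (r : ℝ) (hr1 : r ≤ ∫ p, Ψ p.2.1 * G p.1 * Ht p.2.2 ∂(ν ⊗ₘ b) + ∫ x, κ (G x) ∂ν + ∫ x, κ (Ht x) ∂ν)
    (hr2 : r ≤ ∫ p, Ψ p.2.1 * Gt p.1 * H p.2.2 ∂(ν ⊗ₘ b) + ∫ x, κ (Gt x) ∂ν + ∫ x, κ (H x) ∂ν) :
    r - ∫ y, Err y ∂ν ≤ ∫ p, Ψ2 p.2.1 * G p.1 * H p.2.2 ∂(ν ⊗ₘ conc b b)
      + ∫ x, κ (G x) ∂ν + ∫ x, κ (H x) ∂ν := by
  have mRK := RK_markov (E := E) b hH
  have hm2 : Measurable (fun p : (S × (E × S)) × (E × S) =>
      (p.1.2.2, ((p.1.2.1, G p.1.1), (p.2.1, H p.2.2)))) := by fun_prop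
  have hmc : Measurable (fun p : (S × (E × S)) × (E × S) => (p.1.1, (p.1.2.1 + p.2.1, p.2.2))) := by
    fun_prop
  have hRKe : (b.map (fun q : E × S => (q.1, H q.2))) = RK b H := rfl
  rw [hRKe] at h2
  -- (a)
  have hF3 : Measurable (fun z : S × ((E × ℝ) × (E × ℝ)) =>
      Ψ2 (z.2.1.1 + z.2.2.1) * z.2.1.2 * z.2.2.2) := by fun_prop
  have hFc : Measurable (fun p : S × (E × S) => Ψ2 p.2.1 * G p.1 * H p.2.2) := by fun_prop
  have ic : Integrable (fun p : S × (E × S) => Ψ2 p.2.1 * G p.1 * H p.2.2) (ν ⊗ₘ conc b b) :=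
    int_mul_bdd (int_mul_bdd iΨ2 (hG.comp measurable_fst) fun p => cG p.1)
      (hH.comp (measurable_snd.comp measurable_snd)) fun p => cH p.2.2
  have ea : ∫ p, Ψ2 p.2.1 * G p.1 * H p.2.2 ∂(ν ⊗ₘ conc b b)
      = ∫ z, Ψ2 (z.2.1.1 + z.2.2.1) * z.2.1.2 * z.2.2.2 ∂(ν ⊗ₘ (L ×ₖ RK b H)) := by
    rw [compProd_conc, integral_map hmc.aemeasurable hFc.aestronglyMeasurable, ← h2,
      integral_map hm2.aemeasurable hF3.aestronglyMeasurable]
  have ia : Integrable (fun z : S × ((E × ℝ) × (E × ℝ)) =>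
      Ψ2 (z.2.1.1 + z.2.2.1) * z.2.1.2 * z.2.2.2) (ν ⊗ₘ (L ×ₖ RK b H)) := by
    rw [← h2, integrable_map_measure hF3.aestronglyMeasurable hm2.aemeasurable]
    rw [compProd_conc, integrable_map_measure hFc.aestronglyMeasurable hmc.aemeasurable] at ic
    exact ic
  have ea2 := Measure.integral_compProd ia
  have ia2 := inner_int ia
  simp only [Kernel.prod_apply] at ea2 ia2
  -- (b)
  have hFb : Measurable (fun z : S × (E × ℝ) => Ψ z.2.1 * z.2.2 * Ht z.1) := by fun_prop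
  have ib0 : Integrable (fun p : S × (E × S) => Ψ p.2.1 * G p.1 * Ht p.2.2) (ν ⊗ₘ b) :=
    int_mul_bdd (int_mul_bdd iΨ (hG.comp measurable_fst) fun p => cG p.1)
      (hHt.comp (measurable_snd.comp measurable_snd)) fun p => cHt p.2.2
  have ib : Integrable (fun z : S × (E × ℝ) => Ψ z.2.1 * z.2.2 * Ht z.1) (ν ⊗ₘ L) :=
    (J1_integrable ν b L G hG h1 _ hFb).2 ib0
  have eb : ∫ y, (∫ p, Ψ p.1 * p.2 ∂(L y)) * Ht y ∂ν = ∫ p, Ψ p.2.1 * G p.1 * Ht p.2.2 ∂(ν ⊗ₘ b) := by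
    have e1 := Measure.integral_compProd ib
    rw [J1_integral ν b L G hG h1 _ hFb] at e1
    rw [e1]
    refine integral_congr_ae (Filter.Eventually.of_forall fun y => ?_)
    exact (integral_mul_const (Ht y) (fun p : E × ℝ => Ψ p.1 * p.2)).symm
  have ib2 : Integrable (fun y => (∫ p, Ψ p.1 * p.2 ∂(L y)) * Ht y) ν := by
    refine (inner_int ib).congr (Filter.Eventually.of_forall fun y => ?_)
    exact integral_mul_const (Ht y) (fun p : E × ℝ => Ψ p.1 * p.2)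
  -- (c)
  have hFc2 : Measurable (fun p : E × ℝ => Ψ p.1 * p.2) := by fun_prop
  have ic0 : Integrable (fun p : S × (E × S) => Ψ p.2.1 * Gt p.1 * H p.2.2) (ν ⊗ₘ b) :=
    int_mul_bdd (int_mul_bdd iΨ (hGt.comp measurable_fst) fun p => cGt p.1)
      (hH.comp (measurable_snd.comp measurable_snd)) fun p => cH p.2.2
  have hcc : ∀ y, ∫ q, Ψ q.1 * Gt y * H q.2 ∂(b y) = (∫ p, Ψ p.1 * p.2 ∂(RK b H y)) * Gt y := by
    intro y
    rw [int_RK b hH _ hFc2, ← integral_mul_const]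
    refine integral_congr_ae (Filter.Eventually.of_forall fun q => ?_)
    simp only
    ring
  have ec : ∫ y, (∫ p, Ψ p.1 * p.2 ∂(RK b H y)) * Gt y ∂ν
      = ∫ p, Ψ p.2.1 * Gt p.1 * H p.2.2 ∂(ν ⊗ₘ b) := by
    rw [Measure.integral_compProd ic0]
    exact integral_congr_ae (Filter.Eventually.of_forall fun y => (hcc y).symm)
  have ic2 : Integrable (fun y => (∫ p, Ψ p.1 * p.2 ∂(RK b H y)) * Gt y) ν :=
    (inner_int ic0).congr (Filter.Eventually.of_forall fun y => hcc y)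
  -- (d)
  have hFd : Measurable (fun z : S × (E × ℝ) => κ z.2.2) := by fun_prop
  have id0 : Integrable (fun p : S × (E × S) => κ (G p.1)) (ν ⊗ₘ b) := by
    have e0 : (ν ⊗ₘ b).map Prod.fst = ν := Measure.fst_compProd ν b
    have i0 : Integrable (fun x => κ (G x)) ((ν ⊗ₘ b).map Prod.fst) := by
      rw [e0]; exact iκG
    exact i0.comp_measurable measurable_fst
  have id1 : Integrable (fun z : S × (E × ℝ) => κ z.2.2) (ν ⊗ₘ L) :=
    (J1_integrable ν b L G hG h1 _ hFd).2 id0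
  have ed : ∫ y, (∫ p, κ p.2 ∂(L y)) ∂ν = ∫ x, κ (G x) ∂ν := by
    have e1 := Measure.integral_compProd id1
    rw [J1_integral ν b L G hG h1 _ hFd, Measure.integral_compProd id0] at e1
    rw [← e1]
    simp
  have id2 : Integrable (fun y => ∫ p, κ p.2 ∂(L y)) ν := inner_int id1
  -- (e)
  have ie0 : Integrable (fun p : S × (E × S) => κ (H p.2.2)) (ν ⊗ₘ b) := by
    have hms : Measurable (fun p : S × (E × S) => p.2.2) := by fun_prop
    have := (integrable_map_measure (μ := ν ⊗ₘ b) (f := fun p : S × (E × S) => p.2.2)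
      (g := fun x => κ (H x)) (hκ.comp hH).aestronglyMeasurable hms.aemeasurable)
    rw [hinv] at this
    exact this.1 iκH
  have hFe : Measurable (fun p : E × ℝ => κ p.2) := by fun_prop
  have hee : ∀ y, ∫ q, κ (H q.2) ∂(b y) = ∫ p, κ p.2 ∂(RK b H y) := by
    intro y
    rw [int_RK b hH _ hFe]
  have ee : ∫ y, (∫ p, κ p.2 ∂(RK b H y)) ∂ν = ∫ x, κ (H x) ∂ν := by
    have hms : Measurable (fun p : S × (E × S) => p.2.2) := by fun_prop
    have e1 := Measure.integral_compProd ie0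
    have e2 : ∫ x, κ (H x) ∂((ν ⊗ₘ b).map (fun p : S × (E × S) => p.2.2))
        = ∫ p, κ (H p.2.2) ∂(ν ⊗ₘ b) :=
      integral_map hms.aemeasurable (hκ.comp hH).aestronglyMeasurable
    rw [hinv] at e2
    rw [e2, e1]
    exact integral_congr_ae (Filter.Eventually.of_forall fun y => (hee y).symm)
  have ie2 : Integrable (fun y => ∫ p, κ p.2 ∂(RK b H y)) ν :=
    (inner_int ie0).congr (Filter.Eventually.of_forall fun y => hee y)
  -- integrate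
  have i1 : Integrable (fun y => ((∫ p, Ψ p.1 * p.2 ∂(L y)) * Ht y + κ (Ht y)) / 2) ν :=
    (ib2.add iκHt).div_const 2
  have i2 : Integrable (fun y => ((∫ p, Ψ p.1 * p.2 ∂(RK b H y)) * Gt y + κ (Gt y)) / 2) ν :=
    (ic2.add iκGt).div_const 2
  have i12 : Integrable (fun y => ((∫ p, Ψ p.1 * p.2 ∂(L y)) * Ht y + κ (Ht y)) / 2
      + ((∫ p, Ψ p.1 * p.2 ∂(RK b H y)) * Gt y + κ (Gt y)) / 2) ν := i1.add i2
  have i3 : Integrable (fun y => ∫ z, Ψ2 (z.1.1 + z.2.1) * z.1.2 * z.2.2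
      ∂((L y).prod (RK b H y)) + (∫ p, κ p.2 ∂(L y)) / 2) ν := ia2.add (id2.div_const 2)
  have i4 : Integrable (fun y => (∫ p, κ p.2 ∂(RK b H y)) / 2) ν := ie2.div_const 2
  have hmain := integral_mono_ae (i12.sub iErr) (i3.add i4) hpt
  have s1 : ∫ y, ((((∫ p, Ψ p.1 * p.2 ∂(L y)) * Ht y + κ (Ht y)) / 2
        + ((∫ p, Ψ p.1 * p.2 ∂(RK b H y)) * Gt y + κ (Gt y)) / 2 - Err y)) ∂ν
      = ((∫ y, (∫ p, Ψ p.1 * p.2 ∂(L y)) * Ht y ∂ν) + ∫ x, κ (Ht x) ∂ν) / 2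
        + ((∫ y, (∫ p, Ψ p.1 * p.2 ∂(RK b H y)) * Gt y ∂ν) + ∫ x, κ (Gt x) ∂ν) / 2
        - ∫ y, Err y ∂ν := by
    rw [integral_sub i12 iErr, integral_add i1 i2, integral_div, integral_div,
      integral_add ib2 iκHt, integral_add ic2 iκGt]
  have s2 : ∫ y, (∫ z, Ψ2 (z.1.1 + z.2.1) * z.1.2 * z.2.2 ∂((L y).prod (RK b H y))
        + (∫ p, κ p.2 ∂(L y)) / 2 + (∫ p, κ p.2 ∂(RK b H y)) / 2) ∂ν
      = (∫ y, (∫ z, Ψ2 (z.1.1 + z.2.1) * z.1.2 * z.2.2 ∂((L y).prod (RK b H y))) ∂ν)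
        + (∫ y, (∫ p, κ p.2 ∂(L y)) ∂ν) / 2 + (∫ y, (∫ p, κ p.2 ∂(RK b H y)) ∂ν) / 2 := by
    rw [integral_add i3 i4, integral_add ia2 (id2.div_const 2), integral_div, integral_div]
  have s3 : ∫ y, ((((∫ p, Ψ p.1 * p.2 ∂(L y)) * Ht y + κ (Ht y)) / 2
        + ((∫ p, Ψ p.1 * p.2 ∂(RK b H y)) * Gt y + κ (Gt y)) / 2 - Err y)) ∂ν
      ≤ ∫ y, (∫ z, Ψ2 (z.1.1 + z.2.1) * z.1.2 * z.2.2 ∂((L y).prod (RK b H y))
        + (∫ p, κ p.2 ∂(L y)) / 2 + (∫ p, κ p.2 ∂(RK b H y)) / 2) ∂ν := hmain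
  rw [s1, s2, eb, ec, ed, ee, ← ea2, ← ea] at s3
  linarith

end Pool.Agent.Q203.UIC
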