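import Pool.Agent.Q203.UIC.StepLib

/-! Project UIC: moments of the left and right kernels, duality. -/

set_option autoImplicit false

open MeasureTheory ProbabilityTheory Pool.Agent.Q42.UIC

namespace Pool.Agent.Q203.UIC

variable {S : Type} [MeasurableSpace S] {E : Type} [MeasurableSpace E]

theorem meas_ki {X : Type} [MeasurableSpace X] (K : Kernel S X) [IsSFiniteKernel K] (F : X → ℝ)
    (hF : Measurable F) : Measurable (fun y => ∫ p, F p ∂(K y)) :=
  (hF.stronglyMeasurable.integral_kernel).measurable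

theorem sq_mean {X : Type} [MeasurableSpace X] (P : Measure X) [IsProbabilityMeasure P] (f : X → ℝ)
    (hf : Measurable f) (h2 : Integrable (fun x => f x ^ 2) P) :
    (∫ x, f x ∂P) ^ 2 ≤ ∫ x, f x ^ 2 ∂P := by
  have hm : MemLp f 2 P := (memLp_two_iff_integrable_sq hf.aestronglyMeasurable).2 h2
  have h1 : Integrable f P := hm.integrable (by norm_num)
  set m := ∫ x, f x ∂P with hm0
  have e : ∫ x, (f x - m) ^ 2 ∂P = ∫ x, f x ^ 2 ∂P - m ^ 2 := by
    have : ∀ x, (f x - m) ^ 2 = f x ^ 2 - (2 * m) * f x + m ^ 2 := fun x => by ring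
    simp_rw [this]
    have i1 : Integrable (fun x => f x ^ 2 - 2 * m * f x) P := h2.sub (h1.const_mul _)
    rw [integral_add i1 (integrable_const _),
      integral_sub h2 (h1.const_mul _), integral_const_mul, ← hm0]
    simp
    ring
  have h0 : 0 ≤ ∫ x, (f x - m) ^ 2 ∂P := integral_nonneg fun x => sq_nonneg _
  linarith

theorem inv_mean {X : Type} [MeasurableSpace X] (P : Measure X) [IsProbabilityMeasure P] (f : X → ℝ)
    (hf : Measurable f) (c M : ℝ) (hc : 0 < c) (h : ∀ᵐ x ∂P, c ≤ f x ∧ f x ≤ M) :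
    c ≤ (∫ x, 1 / f x ∂P)⁻¹ ∧ (∫ x, 1 / f x ∂P)⁻¹ ≤ M := by
  have hM : 0 < M := by
    obtain ⟨x, hx⟩ := h.exists
    linarith [hx.1, hx.2]
  have hi : Integrable (fun x => 1 / f x) P := by
    have hmf : Measurable (fun x => 1 / f x) := hf.const_div 1
    refine Integrable.of_bound hmf.aestronglyMeasurable (1 / c) ?_
    filter_upwards [h] with x hx
    have h0 : 0 < f x := lt_of_lt_of_le hc hx.1
    rw [Real.norm_eq_abs, abs_of_pos (by positivity)]
    exact one_div_le_one_div_of_le hc hx.1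
  have h1 : ∫ x, 1 / f x ∂P ≤ 1 / c := by
    have : ∫ x, 1 / f x ∂P ≤ ∫ x, 1 / c ∂P := by
      refine integral_mono_ae hi (integrable_const _) ?_
      filter_upwards [h] with x hx
      exact one_div_le_one_div_of_le hc hx.1
    simpa using this
  have h2 : 1 / M ≤ ∫ x, 1 / f x ∂P := by
    have : ∫ x, 1 / M ∂P ≤ ∫ x, 1 / f x ∂P := by
      refine integral_mono_ae (integrable_const _) hi ?_
      filter_upwards [h] with x hx
      exact one_div_le_one_div_of_le (by linarith [hx.1]) hx.2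
    simpa using this
  have h3 : 0 < ∫ x, 1 / f x ∂P := lt_of_lt_of_le (by positivity) h2
  constructor
  · rw [le_inv_comm₀ hc h3]
    simpa using h1
  · rw [inv_le_comm₀ h3 hM]
    simpa using h2

section L

variable (ν : Measure S) [IsProbabilityMeasure ν] (b : Kernel S (E × S)) [IsMarkovKernel b]
  (L : Kernel S (E × ℝ)) [IsMarkovKernel L] (G : S → ℝ) (hG : Measurable G)
  (h1 : (ν ⊗ₘ b).map (fun p : S × (E × S) => (p.2.2, (p.2.1, G p.1))) = ν ⊗ₘ L)
  (F : E → ℝ) (hF : Measurable F)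

include hG h1 hF

theorem L_mom (hi : Integrable (fun p : S × (E × S) => F p.2.1) (ν ⊗ₘ b)) :
    (∀ᵐ y ∂ν, Integrable (fun p : E × ℝ => F p.1) (L y)) ∧
    Integrable (fun y => ∫ p, F p.1 ∂(L y)) ν ∧
    ∫ y, (∫ p, F p.1 ∂(L y)) ∂ν = ∫ p, F p.2.1 ∂(ν ⊗ₘ b) := by
  have hF1 : Measurable (fun z : S × (E × ℝ) => F z.2.1) := by fun_prop
  have i1 : Integrable (fun z : S × (E × ℝ) => F z.2.1) (ν ⊗ₘ L) :=
    (J1_integrable ν b L G hG h1 _ hF1).2 hi
  refine ⟨?_, inner_int i1, ?_⟩
  · have := (Measure.integrable_compProd_iff i1.1).1 i1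
    exact this.1
  · rw [← Measure.integral_compProd i1, J1_integral ν b L G hG h1 _ hF1]

/-- duality -/
theorem dual_sq (hi : Integrable (fun p : S × (E × S) => F p.2.1 ^ 2) (ν ⊗ₘ b)) (B : ℝ) (hB : 0 ≤ B)
    (hbwd : ∀ u : S → ℝ, Measurable u → (∃ C : ℝ, ∀ x, |u x| ≤ C) →
      (∫ p, F p.2.1 * u p.2.2 ∂(ν ⊗ₘ b)) ^ 2 ≤ B * ∫ x, u x ^ 2 ∂ν) :
    Integrable (fun y => (∫ p, F p.1 ∂(L y)) ^ 2) ν ∧ ∫ y, (∫ p, F p.1 ∂(L y)) ^ 2 ∂ν ≤ B := by
  have hF2 : Measurable (fun e => F e ^ 2) := by fun_prop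
  obtain ⟨a1, a2, a3⟩ := L_mom ν b L G hG h1 (fun e => F e ^ 2) hF2 hi
  have hFp : Measurable (fun p : E × ℝ => F p.1) := by fun_prop
  have hmem : MemLp (fun p : S × (E × S) => F p.2.1) 2 (ν ⊗ₘ b) :=
    (memLp_two_iff_integrable_sq (Measurable.aestronglyMeasurable (by fun_prop))).2 hi
  have hiF : Integrable (fun p : S × (E × S) => F p.2.1) (ν ⊗ₘ b) := hmem.integrable (by norm_num)
  obtain ⟨b1, b2, b3⟩ := L_mom ν b L G hG h1 F hF hiF
  set m : S → ℝ := fun y => ∫ p, F p.1 ∂(L y) with hm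
  have hmm : Measurable m := meas_ki L _ hFp
  have hm2 : Integrable (fun y => m y ^ 2) ν := by
    refine Integrable.mono' a2 (by fun_prop) ?_
    filter_upwards [a1] with y hy
    rw [Real.norm_eq_abs, abs_of_nonneg (sq_nonneg _)]
    exact sq_mean (L y) _ hFp hy
  refine ⟨hm2, ?_⟩
  -- truncation
  set u : ℕ → S → ℝ := fun N y => max (-(N : ℝ)) (min (m y) N) with hu
  have hum : ∀ N, Measurable (u N) := fun N => by
    simp only [hu]; fun_prop
  have hub : ∀ N y, |u N y| ≤ N := by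
    intro N y
    have hN : (0 : ℝ) ≤ N := by positivity
    rw [abs_le]
    exact ⟨le_max_left _ _, max_le (by linarith) (min_le_right _ _)⟩
  have hu1 : ∀ N y, u N y ^ 2 ≤ m y * u N y := by
    intro N y
    have hN : (0 : ℝ) ≤ N := by positivity
    simp only [hu]
    rcases le_total (m y) N with h | h
    · rw [min_eq_left h]
      rcases le_total (-(N : ℝ)) (m y) with h' | h'
      · rw [max_eq_right h']; nlinarith
      · rw [max_eq_left h']; nlinarith
    · rw [min_eq_right h, max_eq_right (by linarith)]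
      nlinarith
  have hu2 : ∀ N y, u N y ^ 2 ≤ m y ^ 2 := by
    intro N y
    have := hu1 N y
    nlinarith [sq_nonneg (m y - u N y)]
  have hmu : ∀ N, Integrable (fun y => m y * u N y) ν := fun N =>
    int_mul_bdd b2 (hum N) (hub N)
  have hu2i : ∀ N, Integrable (fun y => u N y ^ 2) ν := fun N => by
    refine Integrable.mono' hm2 (by have := hum N; fun_prop) ?_
    filter_upwards with y
    rw [Real.norm_eq_abs, abs_of_nonneg (sq_nonneg _)]
    exact hu2 N y
  have key : ∀ N, ∫ y, u N y ^ 2 ∂ν ≤ B := by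
    intro N
    have e1 : ∫ p, F p.2.1 * u N p.2.2 ∂(ν ⊗ₘ b) = ∫ y, m y * u N y ∂ν := by
      have hFu : Measurable (fun z : S × (E × ℝ) => F z.2.1 * u N z.1) := by
        have := hum N
        fun_prop
      have i0 : Integrable (fun p : S × (E × S) => F p.2.1 * u N p.2.2) (ν ⊗ₘ b) :=
        int_mul_bdd hiF ((hum N).comp (measurable_snd.comp measurable_snd)) fun p => hub N p.2.2
      have i1 : Integrable (fun z : S × (E × ℝ) => F z.2.1 * u N z.1) (ν ⊗ₘ L) :=
        (J1_integrable ν b L G hG h1 _ hFu).2 i0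
      have e2 := J1_integral ν b L G hG h1 _ hFu
      rw [Measure.integral_compProd i1] at e2
      rw [← e2]
      refine integral_congr_ae (Filter.Eventually.of_forall fun y => ?_)
      exact integral_mul_const (u N y) (fun p : E × ℝ => F p.1)
    have e3 := hbwd (u N) (hum N) ⟨N, hub N⟩
    rw [e1] at e3
    have e4 : ∫ y, u N y ^ 2 ∂ν ≤ ∫ y, m y * u N y ∂ν :=
      integral_mono (hu2i N) (hmu N) (hu1 N)
    have e5 : 0 ≤ ∫ y, u N y ^ 2 ∂ν := integral_nonneg fun y => sq_nonneg _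
    rcases e5.eq_or_lt with e6 | e6
    · rw [← e6]; exact hB
    · have e7 : (∫ y, u N y ^ 2 ∂ν) ^ 2 ≤ B * ∫ y, u N y ^ 2 ∂ν := by
        refine le_trans ?_ e3
        exact pow_le_pow_left₀ e5 e4 2
      nlinarith
  have hlim : Filter.Tendsto (fun N : ℕ => ∫ y, u N y ^ 2 ∂ν) Filter.atTop
      (nhds (∫ y, m y ^ 2 ∂ν)) := by
    refine tendsto_integral_of_dominated_convergence (fun y => m y ^ 2)
      (fun N => (hu2i N).1) hm2 ?_ ?_
    · intro N
      filter_upwards with y
      rw [Real.norm_eq_abs, abs_of_nonneg (sq_nonneg _)]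
      exact hu2 N y
    · filter_upwards with y
      have : (fun _ : ℕ => m y ^ 2) =ᶠ[Filter.atTop] fun N : ℕ => u N y ^ 2 := by
        obtain ⟨N0, hN0⟩ := exists_nat_ge |m y|
        filter_upwards [Filter.eventually_ge_atTop N0] with N hN
        have h4 : (N0 : ℝ) ≤ N := by exact_mod_cast hN
        have h5 := abs_le.1 hN0
        simp only [hu]
        rw [min_eq_left (by linarith [h5.2]), max_eq_right (by linarith [h5.1])]
      exact Filter.Tendsto.congr' this tendsto_const_nhds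
  exact le_of_tendsto hlim (Filter.Eventually.of_forall key)

end L

section R

variable (ν : Measure S) [IsProbabilityMeasure ν] (b : Kernel S (E × S)) [IsMarkovKernel b]
  (H : S → ℝ) (hH : Measurable H) (F : E → ℝ) (hF : Measurable F)

include hH hF

theorem R_eq (y : S) : ∫ p, F p.1 ∂(RK b H y) = ∫ q, F q.1 ∂(b y) := by
  rw [int_RK b hH (fun p : E × ℝ => F p.1) (by fun_prop)]

theorem R_mom (hi : Integrable (fun p : S × (E × S) => F p.2.1) (ν ⊗ₘ b)) :
    (∀ᵐ y ∂ν, Integrable (fun p : E × ℝ => F p.1) (RK b H y)) ∧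
    Integrable (fun y => ∫ p, F p.1 ∂(RK b H y)) ν ∧
    ∫ y, (∫ p, F p.1 ∂(RK b H y)) ∂ν = ∫ p, F p.2.1 ∂(ν ⊗ₘ b) := by
  have hfp : Measurable (fun p : E × ℝ => F p.1) := by fun_prop
  refine ⟨?_, ?_, ?_⟩
  · have := (Measure.integrable_compProd_iff hi.1).1 hi
    filter_upwards [this.1] with y hy
    rw [integrable_RK b hH _ hfp]
    exact hy
  · refine (inner_int hi).congr (Filter.Eventually.of_forall fun y => ?_)
    exact (R_eq b H hH F hF y).symm
  · rw [Measure.integral_compProd hi]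
    refine integral_congr_ae (Filter.Eventually.of_forall fun y => ?_)
    exact R_eq b H hH F hF y

omit hF [IsMarkovKernel b] in
theorem R_ae (P : E × ℝ → Prop) (hP : MeasurableSet {p | P p})
    (h : ∀ x e, P (e, H x)) (y : S) : ∀ᵐ p ∂(RK b H y), P p := by
  unfold RK
  rw [Kernel.map_apply _ (meas_RK hH), ae_map_iff (meas_RK hH).aemeasurable hP]
  exact Filter.Eventually.of_forall fun p => h _ _

end R

end Pool.Agent.Q203.UIC
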