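import Pool.Agent.Q203.UIC.StepLib2

/-! Project UIC: second marginal of the concatenation. -/

set_option autoImplicit false

open MeasureTheory ProbabilityTheory Pool.Agent.Q42.UIC

namespace Pool.Agent.Q203.UIC

variable {S : Type} [MeasurableSpace S] {E E' : Type} [MeasurableSpace E] [MeasurableSpace E']

theorem marg2 (ν : Measure S) [IsProbabilityMeasure ν] (b : Kernel S (E × S)) (c : Kernel S (E' × S))
    [IsMarkovKernel b] [IsMarkovKernel c] (hb : EndInv ν b) :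
    ((ν ⊗ₘ b) ⊗ₘ (c.comap (fun p : S × (E × S) => p.2.2) (by fun_prop))).map
      (fun p : (S × (E × S)) × (E' × S) => (p.1.2.2, p.2)) = ν ⊗ₘ c := by
  have hf : Measurable (fun p : (S × (E × S)) × (E' × S) => (p.1.2.2, p.2)) := by fun_prop
  have hm : Measurable (fun p : S × (E × S) => p.2.2) := by fun_prop
  ext s hs
  rw [Measure.map_apply hf hs, Measure.compProd_apply (hf hs), Measure.compProd_apply hs]
  have h1 : Measurable (fun y : S => c y (Prod.mk y ⁻¹' s)) := Kernel.measurable_kernel_prodMk_left hs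
  have h2 : ∫⁻ y, c y (Prod.mk y ⁻¹' s) ∂((ν ⊗ₘ b).map (fun p : S × (E × S) => p.2.2))
      = ∫⁻ p, c p.2.2 (Prod.mk p.2.2 ⁻¹' s) ∂(ν ⊗ₘ b) := lintegral_map h1 hm
  rw [hb] at h2
  rw [h2]
  rfl

theorem snd_int (ν : Measure S) [IsProbabilityMeasure ν] (b : Kernel S (E × S)) (c : Kernel S (E' × S))
    [IsMarkovKernel b] [IsMarkovKernel c] (hb : EndInv ν b) {f : S × (E' × S) → ℝ}
    (hf : Integrable f (ν ⊗ₘ c)) :
    Integrable (fun p : (S × (E × S)) × (E' × S) => f (p.1.2.2, p.2))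
      ((ν ⊗ₘ b) ⊗ₘ (c.comap (fun p : S × (E × S) => p.2.2) (by fun_prop))) := by
  have hm : Measurable (fun p : (S × (E × S)) × (E' × S) => (p.1.2.2, p.2)) := by fun_prop
  rw [← marg2 ν b c hb] at hf
  exact hf.comp_measurable hm

theorem fst_int {X Y : Type} [MeasurableSpace X] [MeasurableSpace Y] (μ : Measure X) [SFinite μ]
    (K : Kernel X Y) [IsMarkovKernel K] {f : X → ℝ} (hf : Integrable f μ) :
    Integrable (fun p : X × Y => f p.1) (μ ⊗ₘ K) := by
  have e0 : (μ ⊗ₘ K).map Prod.fst = μ := Measure.fst_compProd μ K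
  rw [← e0] at hf
  exact hf.comp_measurable measurable_fst

theorem conc_int (ν : Measure S) [IsProbabilityMeasure ν] (c : Kernel S ((ℝ × ℝ) × S))
    [IsMarkovKernel c] (hinv : EndInv ν c)
    (h2 : Integrable (fun p : S × ((ℝ × ℝ) × S) => p.2.1.1 ^ 2) (ν ⊗ₘ c))
    (he : Integrable (fun p : S × ((ℝ × ℝ) × S) => p.2.1.2) (ν ⊗ₘ c)) (n v : ℝ) :
    Integrable (fun p : S × ((ℝ × ℝ) × S) => (p.2.1.1 ^ 2 - p.2.1.2) / n + v) (ν ⊗ₘ conc c c) := by
  have hmc : Measurable (fun p : (S × ((ℝ × ℝ) × S)) × ((ℝ × ℝ) × S) =>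
      (p.1.1, (p.1.2.1 + p.2.1, p.2.2))) := by fun_prop
  have hFm : Measurable (fun p : S × ((ℝ × ℝ) × S) => (p.2.1.1 ^ 2 - p.2.1.2) / n + v) := by fun_prop
  rw [compProd_conc, integrable_map_measure hFm.aestronglyMeasurable hmc.aemeasurable]
  have a1 := fst_int (ν ⊗ₘ c) (c.comap (fun p : S × ((ℝ × ℝ) × S) => p.2.2) (by fun_prop)) h2
  have a2 := snd_int ν c c hinv h2
  have b1 := fst_int (ν ⊗ₘ c) (c.comap (fun p : S × ((ℝ × ℝ) × S) => p.2.2) (by fun_prop)) he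
  have b2 := snd_int ν c c hinv he
  have i1 : Integrable (fun p : (S × ((ℝ × ℝ) × S)) × ((ℝ × ℝ) × S) => (p.1.2.1.1 + p.2.1.1) ^ 2)
      ((ν ⊗ₘ c) ⊗ₘ (c.comap (fun p : S × ((ℝ × ℝ) × S) => p.2.2) (by fun_prop))) := by
    refine Integrable.mono' ((a1.const_mul 2).add (a2.const_mul 2))
      (Measurable.aestronglyMeasurable (by fun_prop)) ?_
    filter_upwards with p
    rw [Real.norm_eq_abs, abs_of_nonneg (sq_nonneg _)]
    simp only [Pi.add_apply]
    nlinarith [sq_nonneg (p.1.2.1.1 - p.2.1.1)]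
  have i2 : Integrable (fun p : (S × ((ℝ × ℝ) × S)) × ((ℝ × ℝ) × S) => p.1.2.1.2 + p.2.1.2)
      ((ν ⊗ₘ c) ⊗ₘ (c.comap (fun p : S × ((ℝ × ℝ) × S) => p.2.2) (by fun_prop))) := b1.add b2
  exact ((i1.sub i2).div_const n).add (integrable_const v)

end Pool.Agent.Q203.UIC
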